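import Pool.Agent.Lib.MP_4960c7_ag.WR.Defs

/-!
# Tate classes are generated in degree two if there are only trivial relations
-/

namespace Pool.Agent.MP_4960c7

open Finset Set.powersetCard

section

variable {F V I : Type*} [Field F] [AddCommGroup V] [Module F V] [LinearOrder I]
  (b : Module.Basis I F V) (Fr : V →ₗ[F] V) (e : I → F) (he : ∀ i, Fr (b i) = e i • b i)

include he in
/-- monomials are eigenvectors -/
private theorem map_basis (S : Finset I) :
    ExteriorAlgebra.map Fr (b.ExteriorAlgebra S) = (∏ i ∈ S, e i) • b.ExteriorAlgebra S := by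
  rw [ExteriorAlgebra.basis_apply_ofCard b (rfl : S.card = S.card)]
  unfold ExteriorAlgebra.ιMulti_family
  rw [ExteriorAlgebra.map_apply_ιMulti]
  have h1 : (Fr : V → V) ∘ ((b : I → V) ∘ (ofFinEmbEquiv.symm (ofCard (rfl : S.card = S.card)))) =
      fun j => e (S.orderEmbOfFin rfl j) •
        ((b : I → V) ∘ (ofFinEmbEquiv.symm (ofCard (rfl : S.card = S.card)))) j := by
    funext j
    exact he _
  rw [h1]
  have h2 := (ExteriorAlgebra.ιMulti F S.card (M := V)).toMultilinearMap.map_smul_univ
    (fun j => e (S.orderEmbOfFin rfl j))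
    ((b : I → V) ∘ (ofFinEmbEquiv.symm (ofCard (rfl : S.card = S.card))))
  have h3 : ∏ j, e (S.orderEmbOfFin rfl j) = ∏ i ∈ S, e i := by
    have := Finset.prod_map (Finset.univ : Finset (Fin S.card)) (S.orderEmbOfFin rfl).toEmbedding e
    rw [Finset.map_orderEmbOfFin_univ] at this
    exact this.symm
  rw [← h3]
  exact h2

include he in
private theorem iterate_basis (S : Finset I) (N : ℕ) :
    (ExteriorAlgebra.map Fr)^[N] (b.ExteriorAlgebra S) =
      (∏ i ∈ S, e i) ^ N • b.ExteriorAlgebra S := by
  induction N with
  | zero => simp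
  | succ N ih =>
    rw [Function.iterate_succ_apply', ih, map_smul, map_basis b Fr e he, smul_smul, pow_succ]

private theorem iterate_sum (f : ExteriorAlgebra F V →ₐ[F] ExteriorAlgebra F V) (N : ℕ) {J : Type*}
    (s : Finset J) (c : J → F) (v : J → ExteriorAlgebra F V) :
    f^[N] (∑ j ∈ s, c j • v j) = ∑ j ∈ s, c j • f^[N] (v j) := by
  induction N with
  | zero => simp
  | succ N ih =>
    rw [Function.iterate_succ_apply', ih, map_sum]
    refine Finset.sum_congr rfl (fun j _ => ?_)
    rw [map_smul, Function.iterate_succ_apply']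

/-- a product of a pair and a disjoint monomial -/
private theorem mem_of_insert_pair (A : Subalgebra F (ExteriorAlgebra F V)) {i j : I} (hij : i ≠ j)
    {S : Finset I} (hi : i ∉ S) (hj : j ∉ S) (h2 : b.ExteriorAlgebra ({i, j} : Finset I) ∈ A)
    (hS : b.ExteriorAlgebra S ∈ A) : b.ExteriorAlgebra (insert i (insert j S)) ∈ A := by
  have hc : ({i, j} : Finset I).card = 2 := Finset.card_pair hij
  have hdis : Disjoint (ofCard hc).val (ofCard (rfl : S.card = S.card)).val := by
    change Disjoint ({i, j} : Finset I) S
    rw [Finset.disjoint_left]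
    intro x hx
    rcases Finset.mem_insert.1 hx with rfl | hx
    · exact hi
    · rw [Finset.mem_singleton.1 hx]
      exact hj
  have h1 := ExteriorAlgebra.basis_mul_of_disjoint b (ofCard hc) (ofCard (rfl : S.card = S.card))
    hdis
  have h3 : ((disjUnion hdis : Set.powersetCard I (2 + S.card)) : Finset I) =
      insert i (insert j S) := by
    rw [Set.powersetCard.coe_disjUnion]
    ext x
    rw [Finset.mem_disjUnion]
    change x ∈ ({i, j} : Finset I) ∨ x ∈ S ↔ _
    simp only [Finset.mem_insert, Finset.mem_singleton, or_assoc]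
  rw [h3] at h1
  have h4 : b.ExteriorAlgebra ({i, j} : Finset I) * b.ExteriorAlgebra S ∈ A := A.mul_mem h2 hS
  have h5 : b.ExteriorAlgebra ({i, j} : Finset I) * b.ExteriorAlgebra S =
      (Equiv.Perm.sign (permOfDisjoint hdis)) • b.ExteriorAlgebra (insert i (insert j S)) := h1
  rw [h5] at h4
  rcases Int.units_eq_one_or (Equiv.Perm.sign (permOfDisjoint hdis)) with h | h
  · rw [h, one_smul] at h4
    exact h4
  · rw [h, Units.neg_smul, one_smul] at h4
    have := A.neg_mem h4
    rwa [neg_neg] at this

end

variable {K : Type*} [Field K] [NumberField K]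

section

variable {F V : Type*} [Field F] [AddCommGroup V] [Module F V]

private theorem pair_isTate {I : Type*} [LinearOrder I] (b : Module.Basis I F V) (Fr : V →ₗ[F] V)
    (e : I → F) (he : ∀ i, Fr (b i) = e i • b i) {q : ℕ} {i j : I} (hij : i ≠ j) {N : ℕ}
    (hN : 0 < N) (hq : (e i * e j) ^ N = (q : F) ^ N) :
    IsTate q Fr 1 (b.ExteriorAlgebra ({i, j} : Finset I)) := by
  have hc : ({i, j} : Finset I).card = 2 := Finset.card_pair hij
  constructor
  · have h := ExteriorAlgebra.basis_eq_coe_basis b (ofCard hc)
    have h' : b.ExteriorAlgebra ({i, j} : Finset I) =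
        (b.exteriorPower 2 (ofCard hc) : ExteriorAlgebra F V) := h
    rw [h']
    exact (b.exteriorPower 2 (ofCard hc)).2
  · refine ⟨N, hN, ?_⟩
    rw [iterate_basis b Fr e he, Finset.prod_pair hij, hq, one_mul]

omit [NumberField K] in
/-- **Only trivial relations imply that the Tate classes are generated in degree two.** -/
theorem tate_of_trivial {q : ℕ} {X : Finset K} (hX : OnlyTrivialRelations q X)
    (hq0 : (q : K) ≠ 0) (hX0 : ∀ x ∈ X, x ≠ 0) (hXne : ∀ x ∈ X, (q : K) / x ≠ x)
    (hXq : ∀ x ∈ X, (q : K) / x ∈ X)
    (ι : K →+* F) (Fr : V →ₗ[F] V) (hFr : DiagonalisableOver q ι X Fr) :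
    TateGeneratedInDegreeTwo q Fr := by
  classical
  obtain ⟨I, b, e, he⟩ := hFr
  let _ : LinearOrder I := linearOrderOfSTO WellOrderingRel
  have he2 : ∀ i, Fr (b i) = (fun i => ι (e i)) i • b i := fun i => (he i).2
  set A : Subalgebra F (ExteriorAlgebra F V) :=
    Algebra.adjoin F {y : ExteriorAlgebra F V | IsTate q Fr 1 y} with hA
  -- balanced monomials of even degree lie in `A`
  have hmono : ∀ (m : ℕ) (S : Finset I), S.card = m → Even m →
      (∀ x ∈ X, (S.filter (fun i => e i = x)).card =
        (S.filter (fun i => e i = (q : K) / x)).card) → b.ExteriorAlgebra S ∈ A := by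
    intro m
    induction m using Nat.strong_induction_on with
    | _ m ih =>
      intro S hSm hme hS
      by_cases hex : ∃ i ∈ S, e i ∈ X
      · obtain ⟨i, hi, hxi⟩ := hex
        have h1 : 0 < (S.filter (fun j => e j = e i)).card :=
          Finset.card_pos.2 ⟨i, Finset.mem_filter.2 ⟨hi, rfl⟩⟩
        rw [hS _ hxi] at h1
        obtain ⟨j, hj⟩ := Finset.card_pos.1 h1
        obtain ⟨hjS, hj⟩ := Finset.mem_filter.1 hj
        have hij : i ≠ j := by
          rintro rfl
          exact hXne _ hxi hj.symm
        have hSe : S = insert i (insert j ((S.erase i).erase j)) := by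
          rw [Finset.insert_erase (Finset.mem_erase.2 ⟨hij.symm, hjS⟩), Finset.insert_erase hi]
        rw [hSe]
        have hcard : ((S.erase i).erase j).card + 2 = m := by
          rw [Finset.card_erase_of_mem (Finset.mem_erase.2 ⟨hij.symm, hjS⟩),
            Finset.card_erase_of_mem hi]
          have : 1 < S.card := Finset.one_lt_card.2 ⟨i, hi, j, hjS, hij⟩
          omega
        refine mem_of_insert_pair b A hij (fun h => ?_) (Finset.notMem_erase _ _) ?_ ?_
        · exact Finset.notMem_erase i S (Finset.mem_of_mem_erase h)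
        · apply Algebra.subset_adjoin
          refine pair_isTate b Fr (fun i => ι (e i)) he2 hij one_pos ?_
          rw [pow_one, pow_one, hj, ← map_mul, mul_div_cancel₀ _ (hX0 _ hxi), map_natCast]
        · refine ih _ (by omega) _ rfl ?_ (fun x hx => ?_)
          · rw [Nat.even_iff] at hme ⊢
            omega
          -- the counts
          have hcount : ∀ y : K, (((S.erase i).erase j).filter (fun a => e a = y)).card +
              ((if e i = y then 1 else 0) + (if e j = y then 1 else 0)) =
              (S.filter (fun a => e a = y)).card := by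
            intro y
            rw [Finset.filter_erase, Finset.filter_erase]
            have hi' : i ∈ S.filter (fun a => e a = y) ↔ e i = y :=
              ⟨fun h => (Finset.mem_filter.1 h).2, fun h => Finset.mem_filter.2 ⟨hi, h⟩⟩
            have hj' : j ∈ (S.filter (fun a => e a = y)).erase i ↔ e j = y :=
              ⟨fun h => (Finset.mem_filter.1 (Finset.mem_of_mem_erase h)).2,
                fun h => Finset.mem_erase.2 ⟨hij.symm, Finset.mem_filter.2 ⟨hjS, h⟩⟩⟩
            by_cases h1 : e i = y
            · have p1 := Finset.card_erase_add_one (hi'.2 h1)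
              by_cases h2 : e j = y
              · have p2 := Finset.card_erase_add_one (hj'.2 h2)
                rw [if_pos h1, if_pos h2]
                omega
              · have p2 := Finset.erase_eq_of_notMem (fun h => h2 (hj'.1 h))
                rw [if_pos h1, if_neg h2, p2]
                omega
            · have p1 := Finset.erase_eq_of_notMem (fun h => h1 (hi'.1 h))
              by_cases h2 : e j = y
              · have p2 := Finset.card_erase_add_one (hj'.2 h2)
                rw [if_neg h1, if_pos h2]
                rw [p1] at p2 ⊢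
                omega
              · have p2 := Finset.erase_eq_of_notMem (fun h => h2 (hj'.1 h))
                rw [if_neg h1, if_neg h2, p2, p1]
                omega
          have c1 := hcount x
          have c2 := hcount ((q : K) / x)
          have c3 := hS x hx
          have d1 : e j = x ↔ e i = (q : K) / x := by
            rw [hj]
            constructor
            · intro h
              rw [← h, div_div_cancel₀ hq0]
            · intro h
              rw [h, div_div_cancel₀ hq0]
          have d2 : e j = (q : K) / x ↔ e i = x := by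
            rw [hj]
            constructor
            · intro h
              have := congrArg (fun z => (q : K) / z) h
              simp only [div_div_cancel₀ hq0] at this
              exact this
            · intro h
              rw [h]
          simp only [d1] at c1
          simp only [d2] at c2
          omega
      · push Not at hex
        rcases S.eq_empty_or_nonempty with rfl | ⟨i, hi⟩
        · have : b.ExteriorAlgebra (∅ : Finset I) = 1 := by
            rw [ExteriorAlgebra.basis_apply_ofCard b (Finset.card_empty)]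
            unfold ExteriorAlgebra.ιMulti_family
            rw [ExteriorAlgebra.ιMulti_apply]
            simp
          rw [this]
          exact A.one_mem
        -- two supersingular eigenvalues
        have hcard2 : 1 < S.card := by
          have : 0 < S.card := Finset.card_pos.2 ⟨i, hi⟩
          rw [Nat.even_iff] at hme
          omega
        obtain ⟨j, hjS, hji⟩ := Finset.exists_mem_ne hcard2 i
        have hij : i ≠ j := hji.symm
        obtain ⟨M₁, hM₁, h1⟩ := (he i).1.resolve_left (hex i hi)
        obtain ⟨M₂, hM₂, h2⟩ := (he j).1.resolve_left (hex j hjS)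
        have hSe : S = insert i (insert j ((S.erase i).erase j)) := by
          rw [Finset.insert_erase (Finset.mem_erase.2 ⟨hij.symm, hjS⟩), Finset.insert_erase hi]
        rw [hSe]
        have hcard : ((S.erase i).erase j).card + 2 = m := by
          rw [Finset.card_erase_of_mem (Finset.mem_erase.2 ⟨hij.symm, hjS⟩),
            Finset.card_erase_of_mem hi]
          omega
        refine mem_of_insert_pair b A hij (fun h => ?_) (Finset.notMem_erase _ _) ?_ ?_
        · exact Finset.notMem_erase i S (Finset.mem_of_mem_erase h)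
        · apply Algebra.subset_adjoin
          refine pair_isTate b Fr (fun i => ι (e i)) he2 hij (N := 2 * (M₁ * M₂)) (by positivity) ?_
          rw [← map_mul, ← map_pow, mul_pow]
          have e1 : e i ^ (2 * (M₁ * M₂)) = (q : K) ^ (M₁ * M₂) := by
            rw [show 2 * (M₁ * M₂) = (2 * M₁) * M₂ by ring, pow_mul, h1, ← pow_mul]
          have e2 : e j ^ (2 * (M₁ * M₂)) = (q : K) ^ (M₁ * M₂) := by
            rw [show 2 * (M₁ * M₂) = (2 * M₂) * M₁ by ring, pow_mul, h2, ← pow_mul, mul_comm M₂]
          rw [e1, e2, ← pow_add, map_pow, map_natCast, two_mul]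
        · refine ih _ (by omega) _ rfl ?_ (fun x hx => ?_)
          · rw [Nat.even_iff] at hme ⊢
            omega
          · have hz : ∀ y ∈ X, (((S.erase i).erase j).filter (fun a => e a = y)).card = 0 := by
              intro y hy
              rw [Finset.card_eq_zero, Finset.filter_eq_empty_iff]
              intro a ha h
              exact hex a (Finset.mem_of_mem_erase (Finset.mem_of_mem_erase ha)) (h ▸ hy)
            rw [hz x hx, hz _ (hXq x hx)]
  intro k z hz
  obtain ⟨hzk, N, hN, hzN⟩ := hz
  have hrepr := (b.exteriorPower (2 * k)).linearCombination_repr ⟨z, hzk⟩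
  have hrepr' := congrArg (fun y : (⋀[F]^(2 * k) V : Submodule F (ExteriorAlgebra F V)) =>
    (y : ExteriorAlgebra F V)) hrepr
  beta_reduce at hrepr'
  set c := (b.exteriorPower (2 * k)).repr ⟨z, hzk⟩ with hc
  rw [Finsupp.linearCombination_apply, Finsupp.sum, Submodule.coe_sum] at hrepr'
  have hrepr2 : ∑ s ∈ c.support, c s • b.ExteriorAlgebra (s : Finset I) = z := by
    refine Eq.trans (Finset.sum_congr rfl (fun s _ => ?_)) hrepr'
    rw [ExteriorAlgebra.basis_eq_coe_basis]
    rfl
  rw [← hrepr2] at hzN ⊢
  refine A.sum_mem (fun s hs => A.smul_mem (hmono (2 * k) (s : Finset I) s.2 (even_two_mul k) ?_) _)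
  have hcs : c s ≠ 0 := Finsupp.mem_support_iff.1 hs
  -- compare the coefficients
  rw [iterate_sum, Finset.smul_sum] at hzN
  have h1 := congrArg (fun y => b.ExteriorAlgebra.repr y (s : Finset I)) hzN
  have h2 : ∀ (a : Set.powersetCard I (2 * k) → F), b.ExteriorAlgebra.repr
      (∑ t ∈ c.support, a t • b.ExteriorAlgebra (t : Finset I)) (s : Finset I) = a s := by
    intro a
    rw [map_sum, Finsupp.finsetSum_apply]
    rw [Finset.sum_eq_single s]
    · rw [map_smul, Module.Basis.repr_self, Finsupp.smul_apply, Finsupp.single_eq_same,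
        smul_eq_mul, mul_one]
    · intro t _ hts
      rw [map_smul, Module.Basis.repr_self, Finsupp.smul_apply,
        Finsupp.single_eq_of_ne (fun h => hts (Subtype.ext h.symm)), smul_zero]
    · intro h
      exact absurd hs h
  have h3 : ∑ t ∈ c.support, c t • (ExteriorAlgebra.map Fr)^[N] (b.ExteriorAlgebra (t : Finset I)) =
      ∑ t ∈ c.support, (c t * (∏ i ∈ (t : Finset I), ι (e i)) ^ N) •
        b.ExteriorAlgebra (t : Finset I) := by
    refine Finset.sum_congr rfl (fun t _ => ?_)
    rw [iterate_basis b Fr (fun i => ι (e i)) he2, smul_smul]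
  have h4 : ∑ t ∈ c.support, (q : F) ^ (k * N) • c t • b.ExteriorAlgebra (t : Finset I) =
      ∑ t ∈ c.support, ((q : F) ^ (k * N) * c t) • b.ExteriorAlgebra (t : Finset I) :=
    Finset.sum_congr rfl (fun t _ => by rw [smul_smul])
  rw [h3, h4] at h1
  simp only [h2] at h1
  set S : Finset I := (s : Finset I) with hS
  have h5 : (∏ i ∈ S, ι (e i)) ^ N = (q : F) ^ (k * N) := by
    rw [mul_comm ((q : F) ^ (k * N))] at h1
    exact mul_left_cancel₀ hcs h1
  have h6 : (∏ i ∈ S, e i) ^ N = (q : K) ^ (k * N) := by
    apply ι.injective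
    rw [map_pow, map_prod, map_pow, map_natCast, h5]
  -- the supersingular part
  have hss : ∃ M : ℕ, 0 < M ∧ (∏ i ∈ S.filter (fun i => ¬ e i ∈ X), e i) ^ (2 * M) =
      (q : K) ^ (M * (S.filter (fun i => ¬ e i ∈ X)).card) := by
    have hgen : ∀ Z : Finset I, (∀ i ∈ Z, ¬ e i ∈ X) → ∃ M : ℕ, 0 < M ∧
        (∏ i ∈ Z, e i) ^ (2 * M) = (q : K) ^ (M * Z.card) := by
      intro Z
      induction Z using Finset.induction_on with
      | empty => exact fun _ => ⟨1, one_pos, by simp⟩
      | insert a Z ha ih =>
        intro hZ
        obtain ⟨M₁, hM₁, h1⟩ := ih (fun i hi => hZ i (Finset.mem_insert_of_mem hi))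
        obtain ⟨M₂, hM₂, h2⟩ := (he a).1.resolve_left (hZ a (Finset.mem_insert_self a Z))
        refine ⟨M₁ * M₂, Nat.mul_pos hM₁ hM₂, ?_⟩
        rw [Finset.prod_insert ha, Finset.card_insert_of_notMem ha, mul_pow]
        have e1 : (∏ i ∈ Z, e i) ^ (2 * (M₁ * M₂)) = (q : K) ^ (M₁ * M₂ * Z.card) := by
          rw [show 2 * (M₁ * M₂) = (2 * M₁) * M₂ by ring, pow_mul, h1, ← pow_mul]
          congr 1
          ring
        have e2 : e a ^ (2 * (M₁ * M₂)) = (q : K) ^ (M₁ * M₂) := by
          rw [show 2 * (M₁ * M₂) = (2 * M₂) * M₁ by ring, pow_mul, h2, ← pow_mul, mul_comm M₂]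
        rw [e1, e2, ← pow_add]
        congr 1
        ring
    exact hgen _ (fun i hi => (Finset.mem_filter.1 hi).2)
  obtain ⟨M, hM, hss⟩ := hss
  have h7 : ∏ i ∈ S.filter (fun i => e i ∈ X), e i =
      ∏ x ∈ X, x ^ ((S.filter (fun i => e i = x)).card : ℤ) := by
    rw [← Finset.prod_fiberwise_of_maps_to (g := e) (t := X)
      (fun i hi => (Finset.mem_filter.1 hi).2)]
    refine Finset.prod_congr rfl (fun x hx => ?_)
    have hfil : (S.filter (fun i => e i ∈ X)).filter (fun i => e i = x) =
        S.filter (fun i => e i = x) := by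
      ext i
      simp only [Finset.mem_filter]
      constructor
      · rintro ⟨⟨a1, _⟩, a3⟩
        exact ⟨a1, a3⟩
      · rintro ⟨a1, a3⟩
        exact ⟨⟨a1, a3 ▸ hx⟩, a3⟩
    rw [hfil, Finset.prod_congr rfl (fun i hi => (Finset.mem_filter.1 hi).2), Finset.prod_const,
      zpow_natCast]
  have h8 : (∏ i ∈ S.filter (fun i => e i ∈ X), e i) *
      (∏ i ∈ S.filter (fun i => ¬ e i ∈ X), e i) = ∏ i ∈ S, e i :=
    Finset.prod_filter_mul_prod_filter_not S _ _
  have h9 : (∏ x ∈ X, x ^ ((S.filter (fun i => e i = x)).card : ℤ)) ^ (2 * M * N) =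
      (q : K) ^ (((k * N * (2 * M) : ℕ) : ℤ) -
        ((M * (S.filter (fun i => ¬ e i ∈ X)).card * N : ℕ) : ℤ)) := by
    rw [zpow_sub₀ hq0, zpow_natCast, zpow_natCast, eq_div_iff (pow_ne_zero _ hq0), ← h7]
    have e1 := congrArg (fun y => y ^ (2 * M)) h6
    beta_reduce at e1
    rw [← h8, ← pow_mul, ← pow_mul, mul_pow] at e1
    have e2 : (∏ i ∈ S.filter (fun i => ¬ e i ∈ X), e i) ^ (N * (2 * M)) =
        (q : K) ^ (M * (S.filter (fun i => ¬ e i ∈ X)).card * N) := by
      rw [show N * (2 * M) = (2 * M) * N by ring, pow_mul, hss, ← pow_mul]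
    rw [e2] at e1
    rw [show 2 * M * N = N * (2 * M) by ring]
    exact e1
  have h10 := hX (fun x => ((S.filter (fun i => e i = x)).card : ℤ)) (2 * M * N) _
    (Nat.mul_pos (Nat.mul_pos two_pos hM) hN) h9
  intro x hx
  exact_mod_cast h10 x hx

end

end Pool.Agent.MP_4960c7
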