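import Mathlib

/-!
# Multiplicative relations between conjugates of a Weil number, Tate classes: definitions

`K` is a number field, Galois over `ℚ` in the theorems.
-/

namespace Pool.Agent.MP_4960c7

variable {K : Type*} [Field K] [NumberField K]

/-- Every complex absolute value of `α` is the square root of `q`. -/
def IsWeil (q : ℕ) (α : K) : Prop := ∀ ψ : K →+* ℂ, ‖ψ α‖ ^ 2 = (q : ℝ)

open Classical in
/-- The conjugates of `α` (the roots of its minimal polynomial, if `K` is Galois over `ℚ`). -/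
noncomputable def conjs (α : K) : Finset K := Finset.univ.image fun σ : K ≃ₐ[ℚ] K => σ α

open Classical in
/-- The conjugates of `α` over the subfield `F`. -/
noncomputable def conjsOver (F : IntermediateField ℚ K) (α : K) : Finset K :=
  (Finset.univ.filter fun σ : K ≃ₐ[ℚ] K => ∀ y ∈ F, σ y = y).image fun σ => σ α

/-- The slope of `x`, normalised by `slope q = 1`, with respect to the absolute value `w`. -/
noncomputable def pSlope (w : AbsoluteValue K ℝ) (q : ℕ) (x : K) : ℝ :=
  Real.log (w x) / Real.log (w (q : K))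

open Classical in
/-- All conjugates of the elements of `A`. -/
noncomputable def conjsOf (A : Finset K) : Finset K := A.biUnion conjs

/-- All multiplicative relations between the elements of `X` and `q`, up to roots of unity, follow
from the relations `x * (q / x) = q`. -/
def OnlyTrivialRelations (q : ℕ) (X : Finset K) : Prop :=
  ∀ (n : K → ℤ) (N : ℕ) (m : ℤ), 0 < N → (∏ x ∈ X, x ^ n x) ^ N = (q : K) ^ m →
    ∀ x ∈ X, n x = n ((q : K) / x)

/-- The field generated by the conjugates of `α` of slope `< 1/2`, and the field generated by the other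
elements of slope `< 1/2` of the set of all conjugates of `A`, have a real intersection. -/
def Separated (φ : K →+* ℂ) (w : AbsoluteValue K ℝ) (q : ℕ) (A : Finset K) (α : K) : Prop :=
  ∀ y ∈ IntermediateField.adjoin ℚ {x : K | x ∈ conjs α ∧ pSlope w q x < 1 / 2},
    y ∈ IntermediateField.adjoin ℚ {x : K | x ∈ conjsOf A ∧ x ∉ conjs α ∧ pSlope w q x < 1 / 2} →
      (φ y).im = 0

/-- `α` is of prime power type: it has `2 l ^ k` conjugates over a real field `F`, `l` a prime, of slopes
`1/2 - t x / D` with integers `t x`; all other conjugates have slope `1/2`; and there is no CM type `P`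
of the conjugates over `F` such that `l` divides the sum of the `t (σ x)` over `P` for all `σ` fixing
`F`. -/
def PrimePowerType (φ : K →+* ℂ) (w : AbsoluteValue K ℝ) (q : ℕ) (α : K) : Prop :=
  ∃ (F : IntermediateField ℚ K) (l k : ℕ) (t : K → ℤ) (D : ℕ), (∀ y ∈ F, (φ y).im = 0) ∧
    l.Prime ∧ (conjsOver F α).card = 2 * l ^ k ∧ 0 < D ∧
    (∀ x ∈ conjsOver F α, pSlope w q x = 1 / 2 - (t x : ℝ) / D) ∧
    (∀ x ∈ conjs α, x ∉ conjsOver F α → pSlope w q x = 1 / 2) ∧
    ∀ P : Finset K, P ⊆ conjsOver F α → (∀ x ∈ conjsOver F α, x ∈ P ↔ (q : K) / x ∉ P) →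
      ∃ σ : K ≃ₐ[ℚ] K, (∀ y ∈ F, σ y = y) ∧ ¬ (l : ℤ) ∣ ∑ x ∈ P, t (σ x)

section tate

variable {F V : Type*} [Field F] [AddCommGroup V] [Module F V]

/-- `z` is a Tate class of weight `k` in the exterior algebra of `V`: it is homogeneous of degree
`2 k`, and a power `Fr ^ N`, `N ≥ 1`, of the Frobenius multiplies it by `q ^ (k N)`. -/
def IsTate (q : ℕ) (Fr : V →ₗ[F] V) (k : ℕ) (z : ExteriorAlgebra F V) : Prop :=
  z ∈ (⋀[F]^(2 * k) V : Submodule F (ExteriorAlgebra F V)) ∧
    ∃ N : ℕ, 0 < N ∧ (ExteriorAlgebra.map Fr)^[N] z = (q : F) ^ (k * N) • z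

/-- Every Tate class is a polynomial in Tate classes of degree two. -/
def TateGeneratedInDegreeTwo (q : ℕ) (Fr : V →ₗ[F] V) : Prop :=
  ∀ (k : ℕ) (z : ExteriorAlgebra F V), IsTate q Fr k z →
    z ∈ Algebra.adjoin F {y : ExteriorAlgebra F V | IsTate q Fr 1 y}

/-- `Fr` is diagonalisable, and each eigenvalue lies in `X` or is supersingular: `x ^ (2 M) = q ^ M`
for some `M ≥ 1`.  The number field `K` is embedded into the field of coefficients `F` by `ι`. -/
def DiagonalisableOver (q : ℕ) (ι : K →+* F) (X : Finset K) (Fr : V →ₗ[F] V) : Prop :=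
  ∃ (I : Type) (b : Module.Basis I F V) (e : I → K),
    ∀ i, (e i ∈ X ∨ ∃ M : ℕ, 0 < M ∧ e i ^ (2 * M) = (q : K) ^ M) ∧ Fr (b i) = ι (e i) • b i

end tate

end Pool.Agent.MP_4960c7
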