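import Mathlib

/-!
# Two facts about finite groups

* a Sylow `l`-subgroup is transitive on the cosets of a subgroup of index `l ^ k`;
* an `l`-group acting by translations on a nonzero space of functions over `ZMod l` has a nonzero
  fixed vector.
-/

namespace Pool.Agent.MP_4960c7

theorem sylow_mul {G : Type*} [Group G] [Finite G] {l k : ℕ} [Fact l.Prime] (S : Sylow l G)
    (H : Subgroup G) (hH : H.index = l ^ k) (g : G) : ∃ s ∈ (S : Subgroup G), ∃ h ∈ H, g = s * h := by
  have h1 : l ^ k ∣ H.relIndex (S : Subgroup G) * (S : Subgroup G).index := by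
    have e := Subgroup.relIndex_mul_index (inf_le_left : (S : Subgroup G) ⊓ H ≤ (S : Subgroup G))
    rw [Subgroup.inf_relIndex_left] at e
    rw [e, ← hH]
    exact Subgroup.index_dvd_of_le inf_le_right
  have h2 : Nat.Coprime (l ^ k) (S : Subgroup G).index :=
    ((Nat.Prime.coprime_iff_not_dvd Fact.out).2 S.not_dvd_index).pow_left k
  have h3 : l ^ k ∣ H.relIndex (S : Subgroup G) := h2.dvd_of_dvd_mul_right h1
  have h4 : H.relIndex (S : Subgroup G) ≠ 0 := Subgroup.index_ne_zero_of_finite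
  have h5 : l ^ k ≤ H.relIndex (S : Subgroup G) := Nat.le_of_dvd (Nat.pos_of_ne_zero h4) h3
  -- the orbit of the trivial coset
  have h6 : MulAction.stabilizer (S : Subgroup G) ((1 : G) : G ⧸ H) =
      H.subgroupOf (S : Subgroup G) := by
    ext s
    rw [MulAction.mem_stabilizer_iff, Subgroup.mem_subgroupOf]
    change (((s : G) * 1 : G) : G ⧸ H) = ((1 : G) : G ⧸ H) ↔ _
    rw [mul_one, eq_comm, QuotientGroup.eq, inv_one, one_mul]
  have h7 : (MulAction.orbit (S : Subgroup G) ((1 : G) : G ⧸ H)).ncard =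
      H.relIndex (S : Subgroup G) := by
    rw [← MulAction.index_stabilizer, h6]
    rfl
  have h8 : MulAction.orbit (S : Subgroup G) ((1 : G) : G ⧸ H) = Set.univ := by
    refine Set.eq_of_subset_of_ncard_le (Set.subset_univ _) ?_
    rw [h7, Set.ncard_univ]
    change H.index ≤ _
    rw [hH]
    exact h5
  have h9 : ((g : G) : G ⧸ H) ∈ MulAction.orbit (S : Subgroup G) ((1 : G) : G ⧸ H) := by
    rw [h8]
    trivial
  obtain ⟨s, hs⟩ := h9
  refine ⟨s, s.2, (s : G)⁻¹ * g, ?_, by group⟩
  have hs' : (((s : G) * 1 : G) : G ⧸ H) = ((g : G) : G ⧸ H) := hs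
  rw [mul_one] at hs'
  exact QuotientGroup.eq.1 hs'

theorem exists_fixed {G : Type*} [Group G] [Finite G] {l : ℕ} [Fact l.Prime] (S : Subgroup G)
    (hS : IsPGroup l S) (W : AddSubgroup (G → ZMod l))
    (hW : ∀ s ∈ S, ∀ u ∈ W, (fun g => u (s⁻¹ * g)) ∈ W) (hne : ∃ u ∈ W, u ≠ 0) :
    ∃ u ∈ W, u ≠ 0 ∧ ∀ s ∈ S, ∀ g, u (s * g) = u g := by
  obtain ⟨u₀, hu₀, hu₀'⟩ := hne
  let _ : MulAction S W :=
    { smul := fun s u => ⟨fun g => (u : G → ZMod l) ((s : G)⁻¹ * g), hW s s.2 u u.2⟩
      one_smul := by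
        intro u
        apply Subtype.ext
        funext g
        change (u : G → ZMod l) (((1 : S) : G)⁻¹ * g) = (u : G → ZMod l) g
        rw [Subgroup.coe_one, inv_one, one_mul]
      mul_smul := by
        intro a b u
        apply Subtype.ext
        funext g
        change (u : G → ZMod l) (((a * b : S) : G)⁻¹ * g) =
          (u : G → ZMod l) ((b : G)⁻¹ * ((a : G)⁻¹ * g))
        rw [Subgroup.coe_mul, mul_inv_rev, mul_assoc] }
  have hdvd : l ∣ Nat.card W := by
    have h1 : addOrderOf (⟨u₀, hu₀⟩ : W) = l := by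
      apply addOrderOf_eq_prime
      · apply Subtype.ext
        funext g
        change l • u₀ g = 0
        rw [nsmul_eq_mul, CharP.cast_eq_zero, zero_mul]
      · intro e
        exact hu₀' (congrArg Subtype.val e)
    have h2 := addOrderOf_dvd_natCard (⟨u₀, hu₀⟩ : W)
    rwa [h1] at h2
  have h0 : (0 : W) ∈ MulAction.fixedPoints S W := by
    intro s
    apply Subtype.ext
    funext g
    rfl
  obtain ⟨b, hb, hb0⟩ := hS.exists_fixed_point_of_prime_dvd_card_of_fixed_point W hdvd h0
  refine ⟨b, b.2, ?_, ?_⟩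
  · intro e
    apply hb0
    apply Subtype.ext
    exact e.symm
  · intro s hs g
    have e := congrArg (fun v : W => (v : G → ZMod l) (s * g)) (hb ⟨s, hs⟩)
    have e' : (b : G → ZMod l) (s⁻¹ * (s * g)) = (b : G → ZMod l) (s * g) := e
    rw [inv_mul_cancel_left] at e'
    exact e'.symm

end Pool.Agent.MP_4960c7
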