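import Pool.Agent.Lib.MP_4960c7_ag.WR.Prime

/-!
# Prime power type: a sufficient condition for all primes
-/

namespace Pool.Agent.MP_4960c7

open Finset

variable {K : Type*} [Field K] [NumberField K]

/-- It suffices that the sum of the positive `t x` is odd and either `l = 2` or it is less than `l`. -/
theorem types_of_odd_lt [IsGalois ℚ K] (φ : K →+* ℂ) {q : ℕ} (hq : 2 ≤ q) {α : K}
    (hα : IsWeil q α) {w : AbsoluteValue K ℝ} (hw : w (q : K) < 1)
    (F : IntermediateField ℚ K) (hF : ∀ y ∈ F, (φ y).im = 0) (t : K → ℤ) {D : ℕ}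
    (hD : 0 < D) (ht : ∀ x ∈ conjsOver F α, pSlope w q x = 1 / 2 - (t x : ℝ) / D)
    {l : ℕ} (hodd : Odd (∑ x ∈ conjsOver F α, max (t x) 0))
    (hl : l = 2 ∨ ∑ x ∈ conjsOver F α, max (t x) 0 < l) :
    (q : K) / α ≠ α ∧ ∀ P : Finset K, P ⊆ conjsOver F α →
      (∀ x ∈ conjsOver F α, x ∈ P ↔ (q : K) / x ∉ P) →
      ∃ σ : K ≃ₐ[ℚ] K, (∀ y ∈ F, σ y = y) ∧ ¬ (l : ℤ) ∣ ∑ x ∈ P, t (σ x) := by
  classical
  obtain ⟨c, hcφ⟩ := exists_conj φ
  have hq0 : (q : K) ≠ 0 := by
    have : q ≠ 0 := by omega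
    exact_mod_cast this
  have hD' : (D : ℝ) ≠ 0 := by exact_mod_cast hD.ne'
  have hsub : ∀ x ∈ conjsOver F α, x ∈ conjs α := by
    intro x hx
    obtain ⟨σ, -, h⟩ := mem_conjsOver.1 hx
    exact mem_conjs.2 ⟨σ, h⟩
  have hcF : ∀ y ∈ F, c y = y := by
    intro y hy
    apply φ.injective
    rw [hcφ]
    exact Complex.conj_eq_iff_im.2 (hF y hy)
  have hbarF : ∀ x ∈ conjsOver F α, (q : K) / x ∈ conjsOver F α := by
    intro x hx
    rw [← conj_apply hcφ hq (isWeil_of_mem hα (hsub x hx))]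
    obtain ⟨τ, h1, rfl⟩ := mem_conjsOver.1 hx
    exact mem_conjsOver.2 ⟨c * τ, fun y hy => by rw [AlgEquiv.mul_apply, h1 y hy, hcF y hy], rfl⟩
  have htodd : ∀ x ∈ conjsOver F α, t ((q : K) / x) = - t x := by
    intro x hx
    have e1 := ht _ (hbarF x hx)
    rw [pSlope_div hq hw (ne_zero_of_isWeil hq φ (isWeil_of_mem hα (hsub x hx))), ht x hx] at e1
    have e2 : (t ((q : K) / x) : ℝ) = - (t x : ℝ) := by
      field_simp at e1
      linarith
    exact_mod_cast e2
  constructor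
  · intro e
    have hz : ∀ x ∈ conjsOver F α, t x = 0 := by
      intro x hx
      obtain ⟨σ, -, rfl⟩ := mem_conjsOver.1 hx
      have e2 : (q : K) / σ α = σ α := by
        conv_rhs => rw [← e]
        rw [map_div₀, map_natCast]
      have := htodd _ hx
      rw [e2] at this
      omega
    have : ∑ x ∈ conjsOver F α, max (t x) 0 = 0 :=
      Finset.sum_eq_zero (fun x hx => by rw [hz x hx, max_self])
    rw [this] at hodd
    exact (by decide : ¬ Odd (0 : ℤ)) hodd
  · intro P hPX hP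
    refine ⟨1, fun _ _ => rfl, fun hdvd => ?_⟩
    have h1 : ∑ x ∈ P, max (t ((q : K) / x)) 0 = ∑ x ∈ conjsOver F α \ P, max (t x) 0 := by
      refine Finset.sum_bij (fun x _ => (q : K) / x) (fun x hx => ?_) (fun x _ y _ h => ?_)
        (fun y hy => ?_) (fun x _ => rfl)
      · exact Finset.mem_sdiff.2 ⟨hbarF x (hPX hx), (hP x (hPX hx)).1 hx⟩
      · have := congrArg (fun z => (q : K) / z) h
        simp only [div_div_cancel₀ hq0] at this
        exact this
      · obtain ⟨hyX, hyP⟩ := Finset.mem_sdiff.1 hy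
        refine ⟨(q : K) / y, ?_, div_div_cancel₀ hq0⟩
        by_contra hb
        exact hyP ((hP y hyX).2 hb)
    have h2 : ∑ x ∈ conjsOver F α, max (t x) 0 =
        ∑ x ∈ P, t x + 2 * ∑ x ∈ P, max (t ((q : K) / x)) 0 := by
      rw [← Finset.sum_sdiff hPX, ← h1, Finset.mul_sum, ← Finset.sum_add_distrib,
        ← Finset.sum_add_distrib]
      refine Finset.sum_congr rfl (fun x hx => ?_)
      rw [htodd x (hPX hx)]
      rcases le_total 0 (t x) with h | h
      · rw [max_eq_left h, max_eq_right (by omega)]; ring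
      · rw [max_eq_right h, max_eq_left (by omega)]; ring
    have h0 : 0 ≤ ∑ x ∈ P, max (t ((q : K) / x)) 0 :=
      Finset.sum_nonneg (fun x _ => le_max_right _ _)
    have h4 : ∑ x ∈ P, max (t ((q : K) / x)) 0 ≤ ∑ x ∈ conjsOver F α, max (t x) 0 := by
      rw [h1]
      exact Finset.sum_le_sum_of_subset_of_nonneg Finset.sdiff_subset
        (fun x _ _ => le_max_right _ _)
    have h3 : ¬ Even (∑ x ∈ P, t x) := by
      intro h3
      rw [h2] at hodd
      exact (Int.not_even_iff_odd.2 hodd) (h3.add (even_two_mul _))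
    have hdvd' : (l : ℤ) ∣ ∑ x ∈ P, t x := hdvd
    rcases hl with rfl | hl
    · exact h3 (even_iff_two_dvd.2 (by exact_mod_cast hdvd'))
    · obtain ⟨m, hm⟩ := hdvd'
      have hm0 : m ≠ 0 := by
        rintro rfl
        rw [mul_zero] at hm
        rw [hm] at h3
        exact h3 (by decide)
      rcases lt_or_gt_of_ne hm0 with h | h
      · nlinarith
      · nlinarith

end Pool.Agent.MP_4960c7
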