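import Pool.Agent.Lib.MP_4960c7_ag.WR.Rel
import Pool.Agent.Lib.MP_4960c7_ag.WR.Grp

/-!
# Degree twice a prime power over a real field

`F` is a real subfield of `K`, `α` has `2 l ^ k` conjugates `x` over `F`, of slopes `1/2 - t x / D`
with integers `t x`, and all other conjugates of `α` have slope `1/2`.  There is no CM type `P` of the
conjugates over `F` such that `l` divides all sums `∑ t (σ x)` over `P`, `σ` fixing `F`.
-/

namespace Pool.Agent.MP_4960c7

open Finset

variable {K : Type*} [Field K] [NumberField K]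

/-- The subgroup of the elements which map `α` to `α` or to `β`. -/
private theorem index_pair {G Y : Type*} [Group G] [Finite G] [MulAction G Y] {α β : Y}
    (hne : α ≠ β) {c : G} (hc : c • α = β) (hcc : c • β = α)
    (hcomm : ∀ g : G, g • α = β → g • β = α) {m : ℕ}
    (horb : (MulAction.orbit G α).ncard = 2 * m) :
    ∃ H : Subgroup G, H.index = m ∧ ∀ g : G, g ∈ H ↔ (g • α = α ∨ g • α = β) := by
  let H : Subgroup G :=
    { carrier := {g | g • α = α ∨ g • α = β}
      one_mem' := Or.inl (one_smul G α)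
      mul_mem' := by
        intro a b ha hb
        rcases hb with hb | hb
        · rcases ha with ha | ha
          · left; rw [mul_smul, hb, ha]
          · right; rw [mul_smul, hb, ha]
        · rcases ha with ha | ha
          · right
            rw [mul_smul, hb]
            have h3 : (c * a) • α = β := by rw [mul_smul, ha, hc]
            have h4 := hcomm _ h3
            rw [mul_smul] at h4
            have h5 : c • (a • β) = c • β := by rw [h4, hcc]
            exact MulAction.injective c h5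
          · left
            rw [mul_smul, hb]
            exact hcomm a ha
      inv_mem' := by
        intro a ha
        rcases ha with ha | ha
        · left
          rw [inv_smul_eq_iff, ha]
        · right
          rw [inv_smul_eq_iff, hcomm a ha] }
  have hH : ∀ g : G, g ∈ H ↔ (g • α = α ∨ g • α = β) := fun g => Iff.rfl
  refine ⟨H, ?_, hH⟩
  have hle : MulAction.stabilizer G α ≤ H := fun g hg => Or.inl hg
  have h1 : (MulAction.stabilizer G α).index = 2 * m := by
    rw [MulAction.index_stabilizer, horb]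
  have h2 : (MulAction.stabilizer G α).relIndex H = 2 := by
    have e1 : MulAction.stabilizer H α = (MulAction.stabilizer G α).subgroupOf H := by
      ext g
      rfl
    have e2 : MulAction.orbit H α = {α, β} := by
      ext x
      constructor
      · rintro ⟨g, rfl⟩
        rcases g.2 with h | h
        · left; exact h
        · right; exact h
      · rintro (rfl | rfl)
        · exact MulAction.mem_orbit_self _
        · exact ⟨⟨c, Or.inr hc⟩, hc⟩
    have e3 := MulAction.index_stabilizer H α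
    rw [e1, e2, Set.ncard_pair hne] at e3
    exact e3
  have h3 := Subgroup.relIndex_mul_index hle
  rw [h1, h2] at h3
  omega

/-- A fixed point free involution has a set of representatives. -/
private theorem exists_half {Y : Type*} {X : Finset Y} {bar : Y → Y} (hbb : ∀ x, bar (bar x) = x)
    (hne : ∀ x ∈ X, bar x ≠ x) : ∃ P : Finset Y, P ⊆ X ∧ ∀ x ∈ X, (x ∈ P ↔ bar x ∉ P) ∨
      bar x ∉ X := by
  classical
  let _ : LinearOrder Y := linearOrderOfSTO WellOrderingRel
  refine ⟨X.filter (fun x => x < bar x), Finset.filter_subset _ _, fun x hx => ?_⟩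
  by_cases hb : bar x ∈ X
  · left
    rw [Finset.mem_filter, Finset.mem_filter, hbb]
    constructor
    · rintro ⟨-, h⟩ ⟨-, h'⟩
      exact absurd h' (not_lt.2 h.le)
    · intro h
      refine ⟨hx, lt_of_not_ge (fun h' => h ⟨hb, lt_of_le_of_ne h' (hne x hx)⟩)⟩
  · exact Or.inr hb

/-- The argument with a Sylow subgroup: `G` acts transitively on the `2 l ^ k` elements of `X`, with
an involution `bar` given by the element `c`; an odd function `r` orthogonal to all translates of the
odd function `t` vanishes, unless there is a set `P` of representatives for `bar` all of whose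
translates have a sum of the values of `t` divisible by `l`. -/
private theorem zero_of_types {G Y : Type*} [Group G] [Finite G] [MulAction G Y] {X : Finset Y}
    {bar : Y → Y} {c : G} {α : Y} (hX : ∀ g : G, ∀ x ∈ X, g • x ∈ X)
    (htr : ∀ x ∈ X, ∃ g : G, g • α = x) (hα : α ∈ X) (hbb : ∀ x, bar (bar x) = x)
    (hbar : ∀ (g : G) (x : Y), g • bar x = bar (g • x)) (hc : ∀ x ∈ X, c • x = bar x)
    (hne : α ≠ bar α) {l k : ℕ} (hl : l.Prime) (hcard : X.card = 2 * l ^ k) (t r : Y → ℤ)
    (ht : ∀ x ∈ X, t (bar x) = - t x)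
    (hodd : ∀ x, r (bar x) = - r x) (hrel : ∀ g : G, ∑ y ∈ X, r (g • y) * max (t y) 0 = 0)
    (hsum : ∀ P : Finset Y, P ⊆ X → (∀ x ∈ X, x ∈ P ↔ bar x ∉ P) →
      ∃ g : G, ¬ (l : ℤ) ∣ ∑ x ∈ P, t (g • x)) :
    ∀ x ∈ X, r x = 0 := by
  classical
  have : Fact l.Prime := ⟨hl⟩
  by_contra hcon
  push Not at hcon
  obtain ⟨x₁, hx₁, hrx₁⟩ := hcon
  have hbX : ∀ x ∈ X, bar x ∈ X := fun x hx => by rw [← hc x hx]; exact hX c x hx
  have hbne : ∀ x ∈ X, bar x ≠ x := by
    intro x hx e
    obtain ⟨g, rfl⟩ := htr x hx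
    rw [← hbar] at e
    exact hne (MulAction.injective g e).symm
  -- divide by the greatest common divisor
  obtain ⟨r', hr', hgcd⟩ := Finset.extract_gcd (s := X) r ⟨α, hα⟩
  have hg0 : X.gcd r ≠ 0 := by
    intro h
    exact hrx₁ ((Finset.gcd_eq_zero_iff.1 h) x₁ hx₁)
  obtain ⟨x₂, hx₂, hrx₂⟩ : ∃ x ∈ X, ¬ (l : ℤ) ∣ r' x := by
    by_contra hall
    push Not at hall
    have h1 : (l : ℤ) ∣ X.gcd r' := Finset.dvd_gcd hall
    rw [hgcd] at h1
    have h2 : (l : ℤ) ≤ 1 := Int.le_of_dvd one_pos h1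
    have := hl.two_le
    omega
  have hr'odd : ∀ x ∈ X, r' (bar x) = - r' x := by
    intro x hx
    have e := hodd x
    rw [hr' x hx, hr' _ (hbX x hx), ← mul_neg] at e
    exact mul_left_cancel₀ hg0 e
  have hrel3 : ∀ g : G, ∑ y ∈ X, r' (g • y) * max (t y) 0 = 0 := by
    intro g
    have e := hrel g
    have e2 : ∑ y ∈ X, r (g • y) * max (t y) 0 = X.gcd r * ∑ y ∈ X, r' (g • y) * max (t y) 0 := by
      rw [Finset.mul_sum]
      refine Finset.sum_congr rfl (fun y hy => ?_)
      rw [hr' _ (hX g y hy)]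
      ring
    rw [e2] at e
    rcases mul_eq_zero.1 e with h | h
    · exact absurd h hg0
    · exact h
  -- representatives
  have hτ : ∀ x : Y, ∃ τ : G, x ∈ X → τ • α = x := by
    intro x
    by_cases hx : x ∈ X
    · obtain ⟨τ, h⟩ := htr x hx
      exact ⟨τ, fun _ => h⟩
    · exact ⟨1, fun h => absurd h hx⟩
  choose τ hτ using hτ
  let W : AddSubgroup (G → ZMod l) :=
    { carrier := {u | (∀ g h : G, h • α = α → u (g * h) = u g) ∧
        (∀ g, u (g * c) = - u g) ∧
        ∀ g, ∑ x ∈ X, u (g * τ x) * ((max (t x) 0 : ℤ) : ZMod l) = 0}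
      zero_mem' := by
        refine ⟨fun _ _ _ => rfl, fun _ => by simp, fun g => ?_⟩
        exact Finset.sum_eq_zero (fun x _ => by simp)
      add_mem' := by
        intro a b ha hb
        refine ⟨fun g h hh => ?_, fun g => ?_, fun g => ?_⟩
        · simp only [Pi.add_apply, ha.1 g h hh, hb.1 g h hh]
        · simp only [Pi.add_apply, ha.2.1 g, hb.2.1 g]
          ring
        · simp only [Pi.add_apply, add_mul, Finset.sum_add_distrib]
          rw [ha.2.2 g, hb.2.2 g, add_zero]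
      neg_mem' := by
        intro a ha
        refine ⟨fun g h hh => ?_, fun g => ?_, fun g => ?_⟩
        · simp only [Pi.neg_apply, ha.1 g h hh]
        · simp only [Pi.neg_apply, ha.2.1 g]
        · simp only [Pi.neg_apply, neg_mul, Finset.sum_neg_distrib]
          rw [ha.2.2 g, neg_zero] }
  have hWmem : ∀ u : G → ZMod l, u ∈ W ↔
      ((∀ g h : G, h • α = α → u (g * h) = u g) ∧ (∀ g, u (g * c) = - u g) ∧
        ∀ g, ∑ x ∈ X, u (g * τ x) * ((max (t x) 0 : ℤ) : ZMod l) = 0) := fun u => Iff.rfl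
  obtain ⟨S⟩ : Nonempty (Sylow l G) := inferInstance
  obtain ⟨u, huW, hu0, hfix⟩ := exists_fixed (S : Subgroup G) S.isPGroup' W
    (by
      intro s _ u hu
      rw [hWmem] at hu ⊢
      refine ⟨fun g h hh => ?_, fun g => ?_, fun g => ?_⟩
      · rw [← mul_assoc]
        exact hu.1 _ h hh
      · rw [← mul_assoc]
        exact hu.2.1 _
      · have := hu.2.2 (s⁻¹ * g)
        simpa only [mul_assoc] using this)
    ⟨fun g => ((r' (g • α) : ℤ) : ZMod l), by
      rw [hWmem]
      refine ⟨fun g h hh => ?_, fun g => ?_, fun g => ?_⟩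
      · rw [mul_smul, hh]
      · rw [mul_smul, hc α hα, hbar, hr'odd _ (hX g α hα)]
        push_cast
        ring
      · have e := congrArg (fun z : ℤ => (z : ZMod l)) (hrel3 g)
        push_cast at e
        rw [← e]
        refine Finset.sum_congr rfl (fun x hx => ?_)
        rw [mul_smul, hτ x hx], by
      intro e
      obtain ⟨σ₂, rfl⟩ := htr x₂ hx₂
      have := congrFun e σ₂
      simp only [Pi.zero_apply] at this
      exact hrx₂ ((ZMod.intCast_zmod_eq_zero_iff_dvd _ _).1 this)⟩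
  rw [hWmem] at huW
  obtain ⟨hu1, hu2, hu3⟩ := huW
  -- the pairs
  have hgb : ∀ g : G, g • α = bar α → g • bar α = α := by
    intro g hg
    rw [hbar, hg, hbb]
  obtain ⟨H, hHi, hHmem⟩ := index_pair (G := G) (α := α) (β := bar α) hne (c := c) (hc α hα)
    (hgb c (hc α hα)) hgb (m := l ^ k)
    (by
      have e : MulAction.orbit G α = ((X : Finset Y) : Set Y) := by
        ext x
        rw [Finset.mem_coe]
        constructor
        · rintro ⟨g, rfl⟩
          exact hX g α hα
        · intro hx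
          obtain ⟨g, hg⟩ := htr x hx
          exact ⟨g, hg⟩
      rw [e, Set.ncard_coe_finset, hcard])
  have hpm : ∀ g, u g = u 1 ∨ u g = - u 1 := by
    intro g
    obtain ⟨s, hs, h, hh, rfl⟩ := sylow_mul S H hHi g
    rw [hfix s hs]
    rcases (hHmem h).1 hh with h1 | h1
    · left
      have := hu1 1 h h1
      rwa [one_mul] at this
    · right
      have h2 : (c⁻¹ * h) • α = α := by
        rw [mul_smul, h1, inv_smul_eq_iff, hc α hα]
      have h3 : h = c * (c⁻¹ * h) := by group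
      rw [h3, hu1 c _ h2, ← one_mul c, hu2 1]
  have hu10 : u 1 ≠ 0 := by
    intro h0
    apply hu0
    funext g
    rcases hpm g with h | h
    · rw [h, h0]; rfl
    · rw [h, h0, neg_zero]; rfl
  -- the function `v x = u (τ x)` on `X`
  have hv : ∀ g : G, ∀ x ∈ X, u (τ (g • x)) = u (g * τ x) := by
    intro g x hx
    have h1 : ((g * τ x)⁻¹ * τ (g • x)) • α = α := by
      rw [mul_smul, hτ _ (hX g x hx), inv_smul_eq_iff, mul_smul, hτ x hx]
    have h2 := hu1 (g * τ x) _ h1
    rwa [mul_inv_cancel_left] at h2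
  have hvb : ∀ x ∈ X, u (τ (bar x)) = - u (τ x) := by
    intro x hx
    have h1 : ((τ x * c)⁻¹ * τ (bar x)) • α = α := by
      rw [mul_smul, hτ _ (hbX x hx), inv_smul_eq_iff, mul_smul, hc α hα, hbar, hτ x hx]
    have h2 := hu1 (τ x * c) _ h1
    rw [mul_inv_cancel_left] at h2
    rw [h2, hu2]
  -- a set of representatives on which `v` is constant
  obtain ⟨P, hPX, hP, hPv⟩ : ∃ P : Finset Y, P ⊆ X ∧ (∀ x ∈ X, x ∈ P ↔ bar x ∉ P) ∧
      ∀ x ∈ P, u (τ x) = u 1 := by
    by_cases h2 : u 1 = - u 1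
    · obtain ⟨P, hPX, hP⟩ := exists_half (X := X) hbb hbne
      refine ⟨P, hPX, fun x hx => (hP x hx).resolve_right (fun h => h (hbX x hx)), fun x _ => ?_⟩
      rcases hpm (τ x) with h | h
      · exact h
      · rw [h, ← h2]
    · refine ⟨X.filter (fun x => u (τ x) = u 1), Finset.filter_subset _ _, fun x hx => ?_,
        fun x hx => (Finset.mem_filter.1 hx).2⟩
      rw [Finset.mem_filter, Finset.mem_filter, hvb x hx]
      constructor
      · rintro ⟨-, h⟩ ⟨-, h'⟩
        rw [h] at h'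
        exact h2 h'.symm
      · intro h
        refine ⟨hx, ?_⟩
        rcases hpm (τ x) with h' | h'
        · exact h'
        · exfalso
          exact h ⟨hbX x hx, by rw [h', neg_neg]⟩
  obtain ⟨g, hg⟩ := hsum P hPX hP
  apply hg
  have hX2 : ∀ F : Y → ZMod l, ∑ x ∈ P, F x + ∑ x ∈ P, F (bar x) = ∑ x ∈ X, F x := by
    intro F
    have h1 : ∑ x ∈ P, F (bar x) = ∑ x ∈ X \ P, F x := by
      refine Finset.sum_bij (fun x _ => bar x) (fun x hx => ?_) (fun x _ y _ h => ?_)
        (fun y hy => ?_) (fun x _ => rfl)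
      · exact Finset.mem_sdiff.2 ⟨hbX x (hPX hx), (hP x (hPX hx)).1 hx⟩
      · rw [← hbb x, h, hbb]
      · obtain ⟨hyX, hyP⟩ := Finset.mem_sdiff.1 hy
        refine ⟨bar y, ?_, hbb y⟩
        by_contra hb
        exact hyP ((hP y hyX).2 hb)
    rw [h1, add_comm, Finset.sum_sdiff hPX]
  have hkey : ((∑ x ∈ P, t (g • x) : ℤ) : ZMod l) * u 1 = 0 := by
    have e1 : ((∑ x ∈ P, t (g • x) : ℤ) : ZMod l) * u 1 =
        ∑ x ∈ P, u (τ x) * ((max (t (g • x)) 0 : ℤ) : ZMod l) +
          ∑ x ∈ P, u (τ (bar x)) * ((max (t (g • bar x)) 0 : ℤ) : ZMod l) := by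
      rw [Int.cast_sum, Finset.sum_mul, ← Finset.sum_add_distrib]
      refine Finset.sum_congr rfl (fun x hx => ?_)
      rw [hvb x (hPX hx), hPv x hx, hbar, ht _ (hX g x (hPX hx))]
      have h3 : t (g • x) = max (t (g • x)) 0 - max (- t (g • x)) 0 := by
        rcases le_total 0 (t (g • x)) with h | h
        · rw [max_eq_left h, max_eq_right (by omega)]; ring
        · rw [max_eq_right h, max_eq_left (by omega)]; ring
      conv_lhs => rw [h3]
      rw [Int.cast_sub]
      ring
    rw [e1, hX2 (fun x => u (τ x) * ((max (t (g • x)) 0 : ℤ) : ZMod l))]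
    have e2 := hu3 g⁻¹
    have e3 : ∑ x ∈ X, u (τ x) * ((max (t (g • x)) 0 : ℤ) : ZMod l) =
        ∑ x ∈ X, u (g⁻¹ * τ x) * ((max (t x) 0 : ℤ) : ZMod l) := by
      refine Finset.sum_bij (fun x _ => g • x) (fun x hx => hX g x hx)
        (fun x _ y _ h => MulAction.injective g h)
        (fun y hy => ⟨g⁻¹ • y, hX g⁻¹ y hy, smul_inv_smul g y⟩) (fun x hx => ?_)
      rw [← hv g⁻¹ _ (hX g x hx), inv_smul_smul]
    rw [e3, e2]
  rcases mul_eq_zero.1 hkey with h | h
  · exact (ZMod.intCast_zmod_eq_zero_iff_dvd _ _).1 h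
  · exact absurd h hu10

/-- **Degree twice a prime power over a real field.** -/
theorem zero_of_prime_power [IsGalois ℚ K] (φ : K →+* ℂ) {q : ℕ} (hq : 2 ≤ q) {α : K}
    (hα : IsWeil q α) {w : AbsoluteValue K ℝ} (hw : w (q : K) < 1)
    (F : IntermediateField ℚ K) (hF : ∀ y ∈ F, (φ y).im = 0)
    {l k : ℕ} (hl : l.Prime) (hcard : (conjsOver F α).card = 2 * l ^ k) (t : K → ℤ) {D : ℕ}
    (hD : 0 < D) (ht : ∀ x ∈ conjsOver F α, pSlope w q x = 1 / 2 - (t x : ℝ) / D)
    (ht' : ∀ x ∈ conjs α, x ∉ conjsOver F α → pSlope w q x = 1 / 2)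
    (hsum : ∀ P : Finset K, P ⊆ conjsOver F α → (∀ x ∈ conjsOver F α, x ∈ P ↔ (q : K) / x ∉ P) →
      ∃ σ : K ≃ₐ[ℚ] K, (∀ y ∈ F, σ y = y) ∧ ¬ (l : ℤ) ∣ ∑ x ∈ P, t (σ x)) (hαne : (q : K) / α ≠ α)
    (r : K → ℤ) (hrodd : ∀ x, r ((q : K) / x) = - r x)
    (hhalf : ∀ σ : K ≃ₐ[ℚ] K, ∑ y ∈ conjs α, ((r (σ y) : ℤ) : ℝ) * max (1 / 2 - pSlope w q y) 0 = 0) :
    ∀ x ∈ conjs α, r x = 0 := by
  classical
  obtain ⟨c, hcφ⟩ := exists_conj φ
  have hX := stable_conjs α
  have hW : ∀ x ∈ conjs α, IsWeil q x := fun x hx => isWeil_of_mem hα hx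
  have hne0 : ∀ x ∈ conjs α, x ≠ 0 := fun x hx => ne_zero_of_isWeil hq φ (hW x hx)
  have hq0 : (q : K) ≠ 0 := by
    have : q ≠ 0 := by omega
    exact_mod_cast this
  have hD' : (D : ℝ) ≠ 0 := by exact_mod_cast hD.ne'
  have hD0 : (0 : ℝ) < D := by exact_mod_cast hD
  have hsub : ∀ x ∈ conjsOver F α, x ∈ conjs α := by
    intro x hx
    obtain ⟨σ, -, h⟩ := mem_conjsOver.1 hx
    exact mem_conjs.2 ⟨σ, h⟩
  have hcF : ∀ y ∈ F, c y = y := by
    intro y hy
    apply φ.injective
    rw [hcφ]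
    exact Complex.conj_eq_iff_im.2 (hF y hy)
  have hαF : α ∈ conjsOver F α := mem_conjsOver.2 ⟨1, fun _ _ => rfl, rfl⟩
  have hFst : ∀ σ : K ≃ₐ[ℚ] K, (∀ y ∈ F, σ y = y) → ∀ x ∈ conjsOver F α, σ x ∈ conjsOver F α := by
    intro σ hσ x hx
    obtain ⟨τ, h1, rfl⟩ := mem_conjsOver.1 hx
    exact mem_conjsOver.2 ⟨σ * τ, fun y hy => by rw [AlgEquiv.mul_apply, h1 y hy, hσ y hy], rfl⟩
  have hcx : ∀ x ∈ conjsOver F α, c x = (q : K) / x := fun x hx =>
    conj_apply hcφ hq (hW x (hsub x hx))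
  have hbarF : ∀ x ∈ conjsOver F α, (q : K) / x ∈ conjsOver F α := by
    intro x hx
    rw [← hcx x hx]
    exact hFst c hcF x hx
  -- `t` is odd
  have htodd : ∀ x ∈ conjsOver F α, t ((q : K) / x) = - t x := by
    intro x hx
    have e1 := ht _ (hbarF x hx)
    rw [pSlope_div hq hw (hne0 x (hsub x hx)), ht x hx] at e1
    have e2 : (t ((q : K) / x) : ℝ) = - (t x : ℝ) := by
      field_simp at e1
      linarith
    exact_mod_cast e2
  suffices h : ∀ σ : K ≃ₐ[ℚ] K, r (σ α) = 0 by
    intro x hx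
    obtain ⟨σ, rfl⟩ := mem_conjs.1 hx
    exact h σ
  -- the integral linear relations
  have hrel1 : ∀ σ : K ≃ₐ[ℚ] K, ∑ y ∈ conjsOver F α, r (σ y) * max (t y) 0 = 0 := by
    intro σ
    have e1 := hhalf σ
    have e2 : ∑ y ∈ conjs α, ((r (σ y) : ℤ) : ℝ) * max (1 / 2 - pSlope w q y) 0 =
        ∑ y ∈ conjsOver F α, ((r (σ y) : ℤ) : ℝ) * max (1 / 2 - pSlope w q y) 0 := by
      symm
      refine Finset.sum_subset hsub (fun x hx hx' => ?_)
      rw [ht' x hx hx', sub_self, max_self, mul_zero]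
    have e3 : ∑ y ∈ conjsOver F α, ((r (σ y) : ℤ) : ℝ) * max (1 / 2 - pSlope w q y) 0 =
        (∑ y ∈ conjsOver F α, ((r (σ y) : ℤ) : ℝ) * ((max (t y) 0 : ℤ) : ℝ)) * (1 / (D : ℝ)) := by
      rw [Finset.sum_mul]
      refine Finset.sum_congr rfl (fun y hy => ?_)
      rw [ht y hy]
      have : max (1 / 2 - (1 / 2 - (t y : ℝ) / D)) 0 = ((max (t y) 0 : ℤ) : ℝ) * (1 / (D : ℝ)) := by
        rw [Int.cast_max, Int.cast_zero, sub_sub_cancel]
        rcases le_total (t y) 0 with h | h
        · have h' : (t y : ℝ) ≤ 0 := by exact_mod_cast h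
          rw [max_eq_right (div_nonpos_of_nonpos_of_nonneg h' hD0.le), max_eq_right h', zero_mul]
        · have h' : (0 : ℝ) ≤ t y := by exact_mod_cast h
          rw [max_eq_left (div_nonneg h' hD0.le), max_eq_left h']
          ring
      rw [this]
      ring
    rw [e2, e3] at e1
    rcases mul_eq_zero.1 e1 with h | h
    · exact_mod_cast h
    · exfalso
      rw [one_div, inv_eq_zero] at h
      exact hD' h
  intro σ₀
  have key := zero_of_types (G := F.fixingSubgroup) (Y := K) (X := conjsOver F α)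
    (bar := fun x => (q : K) / x) (c := ⟨c, (IntermediateField.mem_fixingSubgroup_iff _ _).2 hcF⟩)
    (α := α)
    (fun g x hx => hFst g.1 (fun y hy => (IntermediateField.mem_fixingSubgroup_iff _ _).1 g.2 y hy)
      x hx)
    (fun x hx => by
      obtain ⟨σ, h1, h2⟩ := mem_conjsOver.1 hx
      exact ⟨⟨σ, (IntermediateField.mem_fixingSubgroup_iff _ _).2 h1⟩, h2⟩)
    hαF (fun x => div_div_cancel₀ hq0)
    (fun g x => by
      change g.1 ((q : K) / x) = (q : K) / g.1 x
      rw [map_div₀, map_natCast])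
    (fun x hx => hcx x hx) hαne.symm hl hcard t (fun x => r (σ₀ x)) htodd
    (fun x => by
      rw [map_div₀, map_natCast]
      exact hrodd _)
    (fun g => hrel1 (σ₀ * g.1))
    (fun P hPX hP => by
      obtain ⟨σ, h1, h2⟩ := hsum P hPX hP
      exact ⟨⟨σ, (IntermediateField.mem_fixingSubgroup_iff _ _).2 h1⟩, h2⟩)
  exact key α hαF

/-- If `l = 2` the condition says that the sum of the positive `t x` is odd. -/
theorem types_of_odd [IsGalois ℚ K] (φ : K →+* ℂ) {q : ℕ} (hq : 2 ≤ q) {α : K}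
    (hα : IsWeil q α) {w : AbsoluteValue K ℝ} (hw : w (q : K) < 1)
    (F : IntermediateField ℚ K) (hF : ∀ y ∈ F, (φ y).im = 0) (t : K → ℤ) {D : ℕ}
    (hD : 0 < D) (ht : ∀ x ∈ conjsOver F α, pSlope w q x = 1 / 2 - (t x : ℝ) / D)
    (hodd : Odd (∑ x ∈ conjsOver F α, max (t x) 0)) :
    (q : K) / α ≠ α ∧ ∀ P : Finset K, P ⊆ conjsOver F α →
      (∀ x ∈ conjsOver F α, x ∈ P ↔ (q : K) / x ∉ P) →
      ∃ σ : K ≃ₐ[ℚ] K, (∀ y ∈ F, σ y = y) ∧ ¬ ((2 : ℕ) : ℤ) ∣ ∑ x ∈ P, t (σ x) := by
  classical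
  obtain ⟨c, hcφ⟩ := exists_conj φ
  have hq0 : (q : K) ≠ 0 := by
    have : q ≠ 0 := by omega
    exact_mod_cast this
  have hD' : (D : ℝ) ≠ 0 := by exact_mod_cast hD.ne'
  have hsub : ∀ x ∈ conjsOver F α, x ∈ conjs α := by
    intro x hx
    obtain ⟨σ, -, h⟩ := mem_conjsOver.1 hx
    exact mem_conjs.2 ⟨σ, h⟩
  have hcF : ∀ y ∈ F, c y = y := by
    intro y hy
    apply φ.injective
    rw [hcφ]
    exact Complex.conj_eq_iff_im.2 (hF y hy)
  have hbarF : ∀ x ∈ conjsOver F α, (q : K) / x ∈ conjsOver F α := by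
    intro x hx
    rw [← conj_apply hcφ hq (isWeil_of_mem hα (hsub x hx))]
    obtain ⟨τ, h1, rfl⟩ := mem_conjsOver.1 hx
    exact mem_conjsOver.2 ⟨c * τ, fun y hy => by rw [AlgEquiv.mul_apply, h1 y hy, hcF y hy], rfl⟩
  have htodd : ∀ x ∈ conjsOver F α, t ((q : K) / x) = - t x := by
    intro x hx
    have e1 := ht _ (hbarF x hx)
    rw [pSlope_div hq hw (ne_zero_of_isWeil hq φ (isWeil_of_mem hα (hsub x hx))), ht x hx] at e1
    have e2 : (t ((q : K) / x) : ℝ) = - (t x : ℝ) := by
      field_simp at e1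
      linarith
    exact_mod_cast e2
  constructor
  · intro e
    have hz : ∀ x ∈ conjsOver F α, t x = 0 := by
      intro x hx
      obtain ⟨σ, -, rfl⟩ := mem_conjsOver.1 hx
      have e2 : (q : K) / σ α = σ α := by
        conv_rhs => rw [← e]
        rw [map_div₀, map_natCast]
      have := htodd _ hx
      rw [e2] at this
      omega
    have : ∑ x ∈ conjsOver F α, max (t x) 0 = 0 :=
      Finset.sum_eq_zero (fun x hx => by rw [hz x hx, max_self])
    rw [this] at hodd
    exact (by decide : ¬ Odd (0 : ℤ)) hodd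
  · intro P hPX hP
    refine ⟨1, fun _ _ => rfl, fun hdvd => ?_⟩
    have h1 : ∑ x ∈ P, max (t ((q : K) / x)) 0 = ∑ x ∈ conjsOver F α \ P, max (t x) 0 := by
      refine Finset.sum_bij (fun x _ => (q : K) / x) (fun x hx => ?_) (fun x _ y _ h => ?_)
        (fun y hy => ?_) (fun x _ => rfl)
      · exact Finset.mem_sdiff.2 ⟨hbarF x (hPX hx), (hP x (hPX hx)).1 hx⟩
      · have := congrArg (fun z => (q : K) / z) h
        simp only [div_div_cancel₀ hq0] at this
        exact this
      · obtain ⟨hyX, hyP⟩ := Finset.mem_sdiff.1 hy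
        refine ⟨(q : K) / y, ?_, div_div_cancel₀ hq0⟩
        by_contra hb
        exact hyP ((hP y hyX).2 hb)
    have h2 : ∑ x ∈ conjsOver F α, max (t x) 0 =
        ∑ x ∈ P, t x + 2 * ∑ x ∈ P, max (t ((q : K) / x)) 0 := by
      rw [← Finset.sum_sdiff hPX, ← h1, Finset.mul_sum, ← Finset.sum_add_distrib,
        ← Finset.sum_add_distrib]
      refine Finset.sum_congr rfl (fun x hx => ?_)
      rw [htodd x (hPX hx)]
      rcases le_total 0 (t x) with h | h
      · rw [max_eq_left h, max_eq_right (by omega)]; ring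
      · rw [max_eq_right h, max_eq_left (by omega)]; ring
    have h3 : Even (∑ x ∈ P, t x) := by
      rw [even_iff_two_dvd]
      exact_mod_cast hdvd
    rw [h2] at hodd
    exact (Int.not_even_iff_odd.2 hodd) (h3.add (even_two_mul _))

end Pool.Agent.MP_4960c7
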