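import Pool.Agent.Lib.MP_4960c7_ag.WR.Defs

/-!
# The linear relations between the slopes
-/

namespace Pool.Agent.MP_4960c7

open Finset

variable {K : Type*} [Field K] [NumberField K]

theorem mem_conjs {α x : K} : x ∈ conjs α ↔ ∃ σ : K ≃ₐ[ℚ] K, σ α = x := by
  classical
  simp [conjs]

theorem mem_conjsOver {F : IntermediateField ℚ K} {α x : K} :
    x ∈ conjsOver F α ↔ ∃ σ : K ≃ₐ[ℚ] K, (∀ y ∈ F, σ y = y) ∧ σ α = x := by
  classical
  simp only [conjsOver, Finset.mem_image, Finset.mem_filter, Finset.mem_univ, true_and]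

theorem self_mem (α : K) : α ∈ conjs α := mem_conjs.2 ⟨1, rfl⟩

theorem smul_mem {α x : K} (σ : K ≃ₐ[ℚ] K) (hx : x ∈ conjs α) : σ x ∈ conjs α := by
  obtain ⟨τ, rfl⟩ := mem_conjs.1 hx
  exact mem_conjs.2 ⟨σ * τ, rfl⟩

/-- `X` is stable under the Galois group -/
def Stable (X : Finset K) : Prop := ∀ (σ : K ≃ₐ[ℚ] K), ∀ x ∈ X, σ x ∈ X

theorem stable_conjs (α : K) : Stable (conjs α) := fun σ _ hx => smul_mem σ hx

theorem sum_comp {M : Type*} [AddCommMonoid M] {X : Finset K} (hX : Stable X) (F : K → M)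
    (σ : K ≃ₐ[ℚ] K) : ∑ x ∈ X, F (σ x) = ∑ x ∈ X, F x := by
  refine Finset.sum_bij (fun x _ => σ x) (fun x hx => hX σ x hx) (fun x _ y _ h => σ.injective h)
    (fun y hy => ⟨σ.symm y, hX σ.symm y hy, by simp⟩) (fun x _ => rfl)

theorem isWeil_of_mem {q : ℕ} {α x : K} (h : IsWeil q α) (hx : x ∈ conjs α) : IsWeil q x := by
  obtain ⟨σ, rfl⟩ := mem_conjs.1 hx
  intro ψ
  exact h (ψ.comp (σ : K →+* K))

omit [NumberField K] in
theorem ne_zero_of_isWeil {q : ℕ} (hq : 2 ≤ q) (φ : K →+* ℂ) {x : K} (h : IsWeil q x) : x ≠ 0 := by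
  rintro rfl
  have := h φ
  rw [map_zero, norm_zero] at this
  have h2 : (2 : ℝ) ≤ q := by exact_mod_cast hq
  norm_num at this
  linarith

/-- complex conjugation -/
theorem exists_conj [IsGalois ℚ K] (φ : K →+* ℂ) :
    ∃ c : K ≃ₐ[ℚ] K, ∀ x, φ (c x) = (starRingEnd ℂ) (φ x) := by
  obtain ⟨σ, hσ⟩ := NumberField.ComplexEmbedding.exists_comp_symm_eq_of_comp_eq (k := ℚ) φ
    ((starRingEnd ℂ).comp φ) (Subsingleton.elim _ _)
  refine ⟨σ.symm, fun x => ?_⟩
  exact RingHom.congr_fun hσ x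

theorem conj_apply [IsGalois ℚ K] {φ : K →+* ℂ} {c : K ≃ₐ[ℚ] K}
    (hc : ∀ x, φ (c x) = (starRingEnd ℂ) (φ x)) {q : ℕ} (hq : 2 ≤ q) {x : K} (h : IsWeil q x) :
    c x = (q : K) / x := by
  have hx := ne_zero_of_isWeil hq φ h
  rw [eq_div_iff hx]
  apply φ.injective
  rw [map_mul, hc, map_natCast, mul_comm, Complex.mul_conj, Complex.normSq_eq_norm_sq]
  have := h φ
  exact_mod_cast congrArg (fun r : ℝ => (r : ℂ)) this

/-- `x ↦ q / x` preserves `X` -/
theorem div_mem [IsGalois ℚ K] (φ : K →+* ℂ) {q : ℕ} (hq : 2 ≤ q) {X : Finset K} (hX : Stable X)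
    (hW : ∀ x ∈ X, IsWeil q x) {x : K} (hx : x ∈ X) : (q : K) / x ∈ X := by
  obtain ⟨c, hc⟩ := exists_conj φ
  rw [← conj_apply hc hq (hW x hx)]
  exact hX c x hx

theorem sum_div [IsGalois ℚ K] (φ : K →+* ℂ) {q : ℕ} (hq : 2 ≤ q) {X : Finset K} (hX : Stable X)
    (hW : ∀ x ∈ X, IsWeil q x) {M : Type*} [AddCommMonoid M] (F : K → M) :
    ∑ x ∈ X, F ((q : K) / x) = ∑ x ∈ X, F x := by
  obtain ⟨c, hc⟩ := exists_conj φ
  rw [← sum_comp hX F c]
  refine Finset.sum_congr rfl (fun x hx => ?_)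
  rw [conj_apply hc hq (hW x hx)]

theorem pSlope_div {w : AbsoluteValue K ℝ} {q : ℕ} (hq : 2 ≤ q) (hw : w (q : K) < 1) {x : K}
    (hx : x ≠ 0) : pSlope w q ((q : K) / x) = 1 - pSlope w q x := by
  have hq0 : (q : K) ≠ 0 := by
    have : q ≠ 0 := by omega
    exact_mod_cast this
  have h1 : 0 < w (q : K) := w.pos hq0
  have h2 : Real.log (w (q : K)) ≠ 0 := (Real.log_neg h1 hw).ne
  unfold pSlope
  rw [map_div₀, Real.log_div h1.ne' (w.pos hx).ne', sub_div, div_self h2]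

/-- The linear relations: `∑ n(σ y) (slope y - 1/2) = 0` for every `σ`. -/
theorem linear_relation [IsGalois ℚ K] (φ : K →+* ℂ) {q : ℕ} (hq : 2 ≤ q) {X : Finset K}
    (hX : Stable X) (hW : ∀ x ∈ X, IsWeil q x)
    {w : AbsoluteValue K ℝ} (hw : w (q : K) < 1) {n : K → ℤ} {N : ℕ} {m : ℤ} (hN : 0 < N)
    (hrel : (∏ x ∈ X, x ^ n x) ^ N = (q : K) ^ m) (σ : K ≃ₐ[ℚ] K) :
    ∑ y ∈ X, (n (σ y) : ℝ) * (pSlope w q y - 1 / 2) = 0 := by
  have hq0 : (q : K) ≠ 0 := by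
    have : q ≠ 0 := by omega
    exact_mod_cast this
  have hq1 : (0 : ℝ) < Real.log q := Real.log_pos (by exact_mod_cast (by omega : 1 < q))
  have hwq : 0 < w (q : K) := w.pos hq0
  have hL : Real.log (w (q : K)) ≠ 0 := (Real.log_neg hwq hw).ne
  have hne : ∀ x ∈ X, x ≠ 0 := fun x hx => ne_zero_of_isWeil hq φ (hW x hx)
  -- the archimedean absolute value
  have h1 : (N : ℝ) * ∑ x ∈ X, (n x : ℝ) = 2 * m := by
    have e := congrArg (fun z => Real.log ‖φ z‖) hrel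
    simp only [map_pow, map_prod, map_zpow₀, norm_pow, norm_zpow, norm_prod, map_natCast,
      Complex.norm_natCast, Real.log_pow, Real.log_zpow] at e
    rw [Real.log_prod] at e
    · have e2 : ∀ x ∈ X, Real.log (‖φ x‖ ^ n x) = (n x : ℝ) * (Real.log q / 2) := by
        intro x hx
        rw [Real.log_zpow, ← hW x hx φ, Real.log_pow]
        push_cast
        ring
      rw [Finset.sum_congr rfl e2, ← Finset.sum_mul] at e
      have e3 : ((N : ℝ) * ∑ x ∈ X, (n x : ℝ) - 2 * m) * (Real.log q / 2) = 0 := by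
        linear_combination e
      rcases mul_eq_zero.1 e3 with h | h
      · linarith
      · linarith
    · intro x hx
      exact zpow_ne_zero _ (norm_ne_zero_iff.2 ((map_ne_zero φ).2 (hne x hx)))
  -- the absolute value `w`
  have h2 : (N : ℝ) * ∑ y ∈ X, (n (σ y) : ℝ) * pSlope w q y = m := by
    have e := congrArg (fun z => Real.log (w (σ.symm z))) hrel
    simp only [map_pow, map_prod, map_zpow₀, map_natCast, Real.log_pow, Real.log_zpow] at e
    rw [Real.log_prod] at e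
    · have e2 : ∑ x ∈ X, Real.log (w (σ.symm x) ^ n x) =
          ∑ y ∈ X, (n (σ y) : ℝ) * Real.log (w y) := by
        rw [← sum_comp hX (fun x => Real.log (w (σ.symm x) ^ n x)) σ]
        refine Finset.sum_congr rfl (fun y _ => ?_)
        rw [AlgEquiv.symm_apply_apply, Real.log_zpow]
      rw [e2] at e
      have e3 : ∑ y ∈ X, (n (σ y) : ℝ) * pSlope w q y =
          (∑ y ∈ X, (n (σ y) : ℝ) * Real.log (w y)) / Real.log (w (q : K)) := by
        rw [Finset.sum_div]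
        refine Finset.sum_congr rfl (fun y _ => ?_)
        rw [pSlope]
        ring
      rw [e3, ← mul_div_assoc, e, mul_div_assoc, div_self hL, mul_one]
    · intro x hx
      exact zpow_ne_zero _ (w.pos ((map_ne_zero _).2 (hne x hx))).ne'
  have h3 : ∑ y ∈ X, (n (σ y) : ℝ) = ∑ x ∈ X, (n x : ℝ) :=
    sum_comp hX (fun x => (n x : ℝ)) σ
  have h4 : ∑ y ∈ X, (n (σ y) : ℝ) * (pSlope w q y - 1 / 2) =
      ∑ y ∈ X, (n (σ y) : ℝ) * pSlope w q y - (∑ y ∈ X, (n (σ y) : ℝ)) / 2 := by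
    rw [Finset.sum_div, ← Finset.sum_sub_distrib]
    refine Finset.sum_congr rfl (fun y _ => ?_)
    ring
  have hN' : (0 : ℝ) < N := by exact_mod_cast hN
  rw [h4, h3]
  have h5 : (N : ℝ) * (∑ y ∈ X, (n (σ y) : ℝ) * pSlope w q y -
      (∑ x ∈ X, (n x : ℝ)) / 2) = 0 := by
    linear_combination h2 - h1 / 2
  rcases mul_eq_zero.1 h5 with h | h
  · exact absurd h hN'.ne'
  · exact h

/-- The odd part of a relation. -/
theorem odd_relation [IsGalois ℚ K] (φ : K →+* ℂ) {q : ℕ} (hq : 2 ≤ q) {X : Finset K}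
    (hX : Stable X) (hW : ∀ x ∈ X, IsWeil q x)
    {w : AbsoluteValue K ℝ} (hw : w (q : K) < 1) {n : K → ℤ} {N : ℕ} {m : ℤ} (hN : 0 < N)
    (hrel : (∏ x ∈ X, x ^ n x) ^ N = (q : K) ^ m) (σ : K ≃ₐ[ℚ] K) :
    ∑ y ∈ X, ((n (σ y) - n ((q : K) / σ y) : ℤ) : ℝ) * (pSlope w q y - 1 / 2) = 0 := by
  have h1 := linear_relation φ hq hX hW hw hN hrel σ
  have h2 := sum_div φ hq hX hW (fun y => (n (σ y) : ℝ) * (pSlope w q y - 1 / 2))
  rw [h1] at h2
  have h3 : ∑ y ∈ X, ((n (σ y) - n ((q : K) / σ y) : ℤ) : ℝ) * (pSlope w q y - 1 / 2) =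
      ∑ y ∈ X, (n (σ y) : ℝ) * (pSlope w q y - 1 / 2) +
        ∑ y ∈ X, (n (σ ((q : K) / y)) : ℝ) * (pSlope w q ((q : K) / y) - 1 / 2) := by
    rw [← Finset.sum_add_distrib]
    refine Finset.sum_congr rfl (fun y hy => ?_)
    have hy0 : y ≠ 0 := ne_zero_of_isWeil hq φ (hW y hy)
    rw [pSlope_div hq hw hy0, map_div₀, map_natCast]
    push_cast
    ring
  rw [h3, h1, h2, add_zero]

/-- The same over the conjugates of slope less than `1/2`. -/
theorem half_relation [IsGalois ℚ K] (φ : K →+* ℂ) {q : ℕ} (hq : 2 ≤ q) {X : Finset K}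
    (hX : Stable X) (hW : ∀ x ∈ X, IsWeil q x)
    {w : AbsoluteValue K ℝ} (hw : w (q : K) < 1) {n : K → ℤ} {N : ℕ} {m : ℤ} (hN : 0 < N)
    (hrel : (∏ x ∈ X, x ^ n x) ^ N = (q : K) ^ m) (σ : K ≃ₐ[ℚ] K) :
    ∑ y ∈ X, ((n (σ y) - n ((q : K) / σ y) : ℤ) : ℝ) * max (1 / 2 - pSlope w q y) 0 = 0 := by
  have hq0 : (q : K) ≠ 0 := by
    have : q ≠ 0 := by omega
    exact_mod_cast this
  have e := odd_relation φ hq hX hW hw hN hrel σ
  have e1 := sum_div φ hq hX hW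
    (fun y => ((n (σ y) - n ((q : K) / σ y) : ℤ) : ℝ) * max (1 / 2 - pSlope w q y) 0)
  have e2 : ∑ y ∈ X, ((n (σ y) - n ((q : K) / σ y) : ℤ) : ℝ) * (pSlope w q y - 1 / 2) =
      -∑ y ∈ X, ((n (σ y) - n ((q : K) / σ y) : ℤ) : ℝ) * max (1 / 2 - pSlope w q y) 0 -
        ∑ y ∈ X, ((n (σ ((q : K) / y)) - n ((q : K) / σ ((q : K) / y)) : ℤ) : ℝ) *
          max (1 / 2 - pSlope w q ((q : K) / y)) 0 := by
    rw [← Finset.sum_neg_distrib, ← Finset.sum_sub_distrib]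
    refine Finset.sum_congr rfl (fun y hy => ?_)
    rw [map_div₀, map_natCast, div_div_cancel₀ hq0,
      pSlope_div hq hw (ne_zero_of_isWeil hq φ (hW y hy))]
    have : pSlope w q y - 1 / 2 =
        - max (1 / 2 - pSlope w q y) 0 + max (1 / 2 - (1 - pSlope w q y)) 0 := by
      rcases le_total (pSlope w q y) (1 / 2) with h | h
      · rw [max_eq_left (by linarith), max_eq_right (by linarith)]; ring
      · rw [max_eq_right (by linarith), max_eq_left (by linarith)]; ring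
    conv_lhs => rw [this]
    push_cast
    ring
  rw [e1, e] at e2
  linarith

/-- From the sum over the slopes `< 1/2` to the full sum. -/
theorem full_of_half [IsGalois ℚ K] (φ : K →+* ℂ) {q : ℕ} (hq : 2 ≤ q) {X : Finset K}
    (hX : Stable X) (hW : ∀ x ∈ X, IsWeil q x)
    {w : AbsoluteValue K ℝ} (hw : w (q : K) < 1) (g : K → ℝ) (hg : ∀ x, g ((q : K) / x) = - g x) :
    ∑ y ∈ X, g y * (pSlope w q y - 1 / 2) =
      -2 * ∑ y ∈ X, g y * max (1 / 2 - pSlope w q y) 0 := by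
  have e1 := sum_div φ hq hX hW (fun y => g y * max (1 / 2 - pSlope w q y) 0)
  have e2 : ∑ y ∈ X, g y * (pSlope w q y - 1 / 2) =
      -∑ y ∈ X, g y * max (1 / 2 - pSlope w q y) 0 -
        ∑ y ∈ X, g ((q : K) / y) * max (1 / 2 - pSlope w q ((q : K) / y)) 0 := by
    rw [← Finset.sum_neg_distrib, ← Finset.sum_sub_distrib]
    refine Finset.sum_congr rfl (fun y hy => ?_)
    rw [hg, pSlope_div hq hw (ne_zero_of_isWeil hq φ (hW y hy))]
    have : pSlope w q y - 1 / 2 =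
        - max (1 / 2 - pSlope w q y) 0 + max (1 / 2 - (1 - pSlope w q y)) 0 := by
      rcases le_total (pSlope w q y) (1 / 2) with h | h
      · rw [max_eq_left (by linarith), max_eq_right (by linarith)]; ring
      · rw [max_eq_right (by linarith), max_eq_left (by linarith)]; ring
    conv_lhs => rw [this]
    ring
  rw [e1] at e2
  linarith

end Pool.Agent.MP_4960c7
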