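import Pool.Agent.Lib.MP_4960c7_ag.WR.Rel

/-!
# Several simple factors

The linear relations between the slopes of the conjugates of the elements of a finite set `A` split, if for
each `α ∈ A` the field generated by the conjugates of `α` of slope `< 1/2` and the field generated by the
other elements of slope `< 1/2` have a real intersection.
-/

namespace Pool.Agent.MP_4960c7

open Finset IntermediateField

variable {K : Type*} [Field K] [NumberField K]

theorem mem_conjsOf {A : Finset K} {x : K} : x ∈ conjsOf A ↔ ∃ α ∈ A, x ∈ conjs α := by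
  classical
  simp [conjsOf]

theorem stable_conjsOf (A : Finset K) : Stable (conjsOf A) := by
  intro σ x hx
  obtain ⟨α, hα, hx⟩ := mem_conjsOf.1 hx
  exact mem_conjsOf.2 ⟨α, hα, smul_mem σ hx⟩

/-- A function on the Galois group which is odd for the complex conjugation `c` and right invariant
under the groups of two fields with real intersection is zero. -/
private theorem eq_zero_of_real [IsGalois ℚ K] (φ : K →+* ℂ) (c : K ≃ₐ[ℚ] K)
    (hcφ : ∀ x, φ (c x) = (starRingEnd ℂ) (φ x)) (f : (K ≃ₐ[ℚ] K) → ℝ)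
    (hodd : ∀ σ, f (σ * c) = - f σ) (L₁ L₂ : IntermediateField ℚ K)
    (h1 : ∀ h : K ≃ₐ[ℚ] K, (∀ x ∈ L₁, h x = x) → ∀ σ, f (σ * h) = f σ)
    (h2 : ∀ h : K ≃ₐ[ℚ] K, (∀ x ∈ L₂, h x = x) → ∀ σ, f (σ * h) = f σ)
    (hL : ∀ y, y ∈ L₁ → y ∈ L₂ → (φ y).im = 0) (σ : K ≃ₐ[ℚ] K) : f σ = 0 := by
  let T : Subgroup (K ≃ₐ[ℚ] K) :=
    { carrier := {h | ∀ σ, f (σ * h) = f σ}
      one_mem' := fun σ => by rw [mul_one]
      mul_mem' := by
        intro a b ha hb σ
        rw [← mul_assoc, hb, ha]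
      inv_mem' := by
        intro a ha σ
        have := ha (σ * a⁻¹)
        rw [inv_mul_cancel_right] at this
        exact this.symm }
  have hT : ∀ h : K ≃ₐ[ℚ] K, h ∈ T ↔ ∀ σ, f (σ * h) = f σ := fun h => Iff.rfl
  have hle : ∀ L : IntermediateField ℚ K,
      (∀ h : K ≃ₐ[ℚ] K, (∀ x ∈ L, h x = x) → ∀ σ, f (σ * h) = f σ) →
      IntermediateField.fixedField T ≤ L := by
    intro L h
    have h3 : L.fixingSubgroup ≤ T := by
      intro g hg
      rw [hT]
      exact h g (fun x hx => (IntermediateField.mem_fixingSubgroup_iff _ _).1 hg x hx)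
    have := IntermediateField.fixedField_antitone h3
    rwa [IsGalois.fixedField_fixingSubgroup] at this
  have hcT : c ∈ T := by
    rw [← IntermediateField.fixingSubgroup_fixedField T, IntermediateField.mem_fixingSubgroup_iff]
    intro z hz
    apply φ.injective
    rw [hcφ]
    exact Complex.conj_eq_iff_im.2 (hL z (hle L₁ h1 hz) (hle L₂ h2 hz))
  have := (hT c).1 hcT σ
  rw [hodd] at this
  linarith

/-- No condition for one factor. -/
theorem separated_singleton (φ : K →+* ℂ) (w : AbsoluteValue K ℝ) (q : ℕ) (α : K) :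
    Separated φ w q {α} α := by
  intro y _ hy
  have h : {x : K | x ∈ conjsOf ({α} : Finset K) ∧ x ∉ conjs α ∧ pSlope w q x < 1 / 2} = ∅ := by
    ext x
    simp only [Set.mem_ofPred_eq, Set.mem_empty_iff_false, iff_false]
    rintro ⟨h1, h2, -⟩
    obtain ⟨β, hβ, hx⟩ := mem_conjsOf.1 h1
    rw [Finset.mem_singleton.1 hβ] at hx
    exact h2 hx
  rw [h, IntermediateField.adjoin_empty, IntermediateField.mem_bot] at hy
  obtain ⟨r, rfl⟩ := hy
  have : φ (algebraMap ℚ K r) = (r : ℂ) := by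
    simp
  rw [this]
  exact Complex.ratCast_im r

theorem isWeil_conjsOf {q : ℕ} {A : Finset K} (hA : ∀ α ∈ A, IsWeil q α) :
    ∀ x ∈ conjsOf A, IsWeil q x := by
  intro x hx
  obtain ⟨α, hα, hx⟩ := mem_conjsOf.1 hx
  exact isWeil_of_mem (hA α hα) hx

/-- The relations split. -/
theorem separate [IsGalois ℚ K] (φ : K →+* ℂ) {q : ℕ} (hq : 2 ≤ q) {A : Finset K}
    (hA : ∀ α ∈ A, IsWeil q α) {w : AbsoluteValue K ℝ} (hw : w (q : K) < 1)
    {n : K → ℤ} {N : ℕ} {m : ℤ} (hN : 0 < N)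
    (hrel : (∏ x ∈ conjsOf A, x ^ n x) ^ N = (q : K) ^ m) {α : K} (hα : α ∈ A)
    (hsep : Separated φ w q A α) (σ : K ≃ₐ[ℚ] K) :
    ∑ y ∈ conjs α, ((n (σ y) - n ((q : K) / σ y) : ℤ) : ℝ) * max (1 / 2 - pSlope w q y) 0 = 0 := by
  classical
  obtain ⟨c, hcφ⟩ := exists_conj φ
  have hX := stable_conjsOf A
  have hW := isWeil_conjsOf hA
  have hq0 : (q : K) ≠ 0 := by
    have : q ≠ 0 := by omega
    exact_mod_cast this
  set r : K → ℝ := fun x => ((n x - n ((q : K) / x) : ℤ) : ℝ) with hr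
  have hrodd : ∀ x, r ((q : K) / x) = - r x := by
    intro x
    simp only [hr]
    rw [div_div_cancel₀ hq0]
    push_cast
    ring
  have hsum : ∀ σ : K ≃ₐ[ℚ] K,
      ∑ y ∈ conjsOf A, r (σ y) * max (1 / 2 - pSlope w q y) 0 = 0 := fun σ =>
    half_relation φ hq hX hW hw hN hrel σ
  have hsub : conjs α ⊆ conjsOf A := fun x hx => mem_conjsOf.2 ⟨α, hα, hx⟩
  have hsplit : ∀ τ : K ≃ₐ[ℚ] K, ∑ y ∈ conjs α, r (τ y) * max (1 / 2 - pSlope w q y) 0 =
      - ∑ y ∈ conjsOf A \ conjs α, r (τ y) * max (1 / 2 - pSlope w q y) 0 := by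
    intro τ
    have h1 := Finset.sum_sdiff (f := fun y => r (τ y) * max (1 / 2 - pSlope w q y) 0) hsub
    have h2 := hsum τ
    linarith
  have hzero : ∀ y : K, ¬ pSlope w q y < 1 / 2 → max (1 / 2 - pSlope w q y) 0 = 0 := by
    intro y h
    rw [max_eq_right (by linarith [not_lt.1 h])]
  have key := eq_zero_of_real φ c hcφ
    (fun τ => ∑ y ∈ conjs α, r (τ y) * max (1 / 2 - pSlope w q y) 0) ?_
    (IntermediateField.adjoin ℚ {x : K | x ∈ conjs α ∧ pSlope w q x < 1 / 2})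
    (IntermediateField.adjoin ℚ
      {x : K | x ∈ conjsOf A ∧ x ∉ conjs α ∧ pSlope w q x < 1 / 2}) ?_ ?_ hsep σ
  · exact key
  · intro τ
    rw [← Finset.sum_neg_distrib]
    refine Finset.sum_congr rfl (fun y hy => ?_)
    rw [AlgEquiv.mul_apply, conj_apply hcφ hq (hW y (hsub hy)), map_div₀, map_natCast, hrodd,
      neg_mul]
  · intro h hh τ
    refine Finset.sum_congr rfl (fun y hy => ?_)
    by_cases hs : pSlope w q y < 1 / 2
    · rw [AlgEquiv.mul_apply, hh y (IntermediateField.subset_adjoin ℚ _ ⟨hy, hs⟩)]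
    · rw [hzero y hs, mul_zero, mul_zero]
  · intro h hh τ
    rw [hsplit, hsplit]
    congr 1
    refine Finset.sum_congr rfl (fun y hy => ?_)
    obtain ⟨hy1, hy2⟩ := Finset.mem_sdiff.1 hy
    by_cases hs : pSlope w q y < 1 / 2
    · rw [AlgEquiv.mul_apply, hh y (IntermediateField.subset_adjoin ℚ _ ⟨hy1, hy2, hs⟩)]
    · rw [hzero y hs, mul_zero, mul_zero]

end Pool.Agent.MP_4960c7
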