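import Pool.Agent.Lib.MP_4960c7_ag.WR.Rel

/-!
# Newton polygons close to the supersingular one

`α` has slope `0` and the sum of `|slope x - 1/2|` over all conjugates `x` is at most `2`.
-/

namespace Pool.Agent.MP_4960c7

open Finset IntermediateField

variable {K : Type*} [Field K] [NumberField K]

open Classical in
omit [Field K] [NumberField K] in
/-- The coordinate of `σ α` in terms of the other ones. -/
private theorem key {α β : K} {X : Finset K} (hα : α ∈ X) (hβ : β ∈ X) (hne : β ≠ α) {s : K → ℝ}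
    {r : K → ℝ} (h1 : s α = -(1 / 2)) (h2 : s β = 1 / 2) (hodd : r β = - r α)
    (h : ∑ y ∈ X, r y * s y = 0) :
    r α = ∑ y ∈ (X.erase α).erase β, r y * s y := by
  rw [← Finset.add_sum_erase X (fun y => r y * s y) hα,
    ← Finset.add_sum_erase (X.erase α) (fun y => r y * s y)
      (Finset.mem_erase.2 ⟨hne, hβ⟩)] at h
  simp only [h1, h2, hodd] at h
  linarith

open Classical in
omit [Field K] [NumberField K] in
private theorem key_abs {α β : K} {X : Finset K} (hα : α ∈ X) (hβ : β ∈ X) (hne : β ≠ α) {s : K → ℝ}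
    (h1 : s α = -(1 / 2)) (h2 : s β = 1 / 2) (hs : ∑ y ∈ X, |s y| ≤ 2) :
    ∑ y ∈ (X.erase α).erase β, |s y| ≤ 1 ∧
      (∑ y ∈ X, |s y| ≠ 2 → ∑ y ∈ (X.erase α).erase β, |s y| < 1) := by
  have e : ∑ y ∈ X, |s y| = 1 + ∑ y ∈ (X.erase α).erase β, |s y| := by
    rw [← Finset.add_sum_erase X (fun y => |s y|) hα,
      ← Finset.add_sum_erase (X.erase α) (fun y => |s y|) (Finset.mem_erase.2 ⟨hne, hβ⟩), h1, h2,
      abs_neg, abs_of_pos (by norm_num : (0 : ℝ) < 1 / 2)]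
    ring
  rw [e] at hs ⊢
  refine ⟨by linarith, fun h => lt_of_le_of_ne (by linarith) (fun h' => h (by rw [h']; norm_num))⟩

omit [Field K] [NumberField K] in
/-- If the slope condition is an equality for the maximal coordinate, the others agree with it. -/
private theorem eq_of_max {Y : Finset K} {s r : K → ℝ} {R : ℝ} (hR : R ≠ 0)
    (hsum : R = ∑ y ∈ Y, r y * s y) (hmax : ∀ y ∈ Y, |r y| ≤ |R|) (hs : ∑ y ∈ Y, |s y| ≤ 1) :
    (∑ y ∈ Y, |s y| = 1) ∧ ∀ y ∈ Y, 0 < s y → r y = R := by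
  have hR2 : 0 < R ^ 2 := by positivity
  have hterm : ∀ y ∈ Y, 0 ≤ R ^ 2 * |s y| - R * (r y * s y) := by
    intro y hy
    have a1 : R * (r y * s y) ≤ |R * (r y * s y)| := le_abs_self _
    have a2 : |R * (r y * s y)| = |R| * |r y| * |s y| := by rw [abs_mul, abs_mul]; ring
    have a3 : |R| * |r y| * |s y| ≤ |R| * |R| * |s y| :=
      mul_le_mul_of_nonneg_right (mul_le_mul_of_nonneg_left (hmax y hy) (abs_nonneg R))
        (abs_nonneg _)
    have a4 : |R| * |R| = R ^ 2 := by rw [← sq, sq_abs]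
    rw [a4] at a3
    linarith
  have htot : ∑ y ∈ Y, (R ^ 2 * |s y| - R * (r y * s y)) = R ^ 2 * (∑ y ∈ Y, |s y|) - R ^ 2 := by
    rw [Finset.sum_sub_distrib, ← Finset.mul_sum, ← Finset.mul_sum, ← hsum]
    ring
  have h0 : 0 ≤ R ^ 2 * (∑ y ∈ Y, |s y|) - R ^ 2 := by
    rw [← htot]
    exact Finset.sum_nonneg hterm
  have h1 : ∑ y ∈ Y, |s y| = 1 := by
    apply le_antisymm hs
    by_contra hlt
    push Not at hlt
    nlinarith
  refine ⟨h1, fun y hy hpos => ?_⟩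
  have h2 : ∑ y ∈ Y, (R ^ 2 * |s y| - R * (r y * s y)) = 0 := by rw [htot, h1]; ring
  have h3 := (Finset.sum_eq_zero_iff_of_nonneg hterm).1 h2 y hy
  rw [abs_of_pos hpos] at h3
  have h4 : (R * s y) * (R - r y) = 0 := by linear_combination h3
  rcases mul_eq_zero.1 h4 with h | h
  · rcases mul_eq_zero.1 h with h | h
    · exact absurd h hR
    · exact absurd h hpos.ne'
  · linarith

/-- The group theoretic part: `f σ = r (σ α)` is right invariant under a subgroup. -/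
private theorem subgroup_part [IsGalois ℚ K] (φ : K →+* ℂ) {α β : K} {Y : Set K} (c : K ≃ₐ[ℚ] K)
    (hcφ : ∀ x, φ (c x) = (starRingEnd ℂ) (φ x)) (hc : c α = β)
    (r : K → ℝ) (M : ℝ) (hM : M ≠ 0) (hY : ∀ y ∈ Y, ∃ τ : K ≃ₐ[ℚ] K, τ α = y)
    (hodd : ∀ σ : K ≃ₐ[ℚ] K, r (σ β) = - r (σ α))
    (hinv : ∀ y ∈ Y, ∀ σ : K ≃ₐ[ℚ] K, |r (σ α)| = |M| → r (σ y) = r (σ α))
    (hL : ∀ L : IntermediateField ℚ K, L ≤ IntermediateField.adjoin ℚ {α} →
      (∀ y ∈ Y, ∃ τ : K ≃ₐ[ℚ] K, (∀ z ∈ L, τ z = z) ∧ τ α = y) → ∀ z ∈ L, (φ z).im = 0)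
    (σ₀ : K ≃ₐ[ℚ] K) (hσ₀ : r (σ₀ α) = M) : False := by
  have hone : ∀ σ : K ≃ₐ[ℚ] K, |r (σ α)| = |M| → r ((σ * 1) α) = r (σ α) := fun σ _ => by
    rw [mul_one]
  let S : Submonoid (K ≃ₐ[ℚ] K) :=
    { carrier := {h | ∀ σ : K ≃ₐ[ℚ] K, |r (σ α)| = |M| → r ((σ * h) α) = r (σ α)}
      one_mem' := hone
      mul_mem' := by
        intro a b ha hb σ hσ
        have e := ha σ hσ
        have e2 := hb (σ * a) (by rw [e]; exact hσ)
        rw [← mul_assoc, e2, e] }
  let T : Subgroup (K ≃ₐ[ℚ] K) :=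
    { S with
      inv_mem' := by
        intro x hx
        have hfin : IsOfFinOrder x := isOfFinOrder_of_finite x
        have : x⁻¹ ∈ Submonoid.powers x := by
          rw [hfin.mem_powers_iff_mem_zpowers]
          exact Subgroup.inv_mem _ (Subgroup.mem_zpowers x)
        exact (Submonoid.powers_le.2 hx) this }
  have hTmem : ∀ h : K ≃ₐ[ℚ] K, h ∈ T ↔
      ∀ σ : K ≃ₐ[ℚ] K, |r (σ α)| = |M| → r ((σ * h) α) = r (σ α) := fun h => Iff.rfl
  have hle : (IntermediateField.adjoin ℚ {α}).fixingSubgroup ≤ T := by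
    intro h hh
    rw [hTmem]
    intro σ _
    have : h α = α := (IntermediateField.mem_fixingSubgroup_iff _ _).1 hh α
      (IntermediateField.mem_adjoin_simple_self ℚ α)
    rw [AlgEquiv.mul_apply, this]
  have hLle : IntermediateField.fixedField T ≤ IntermediateField.adjoin ℚ {α} := by
    have := IntermediateField.fixedField_antitone hle
    rwa [IsGalois.fixedField_fixingSubgroup] at this
  have hcT : c ∈ T := by
    rw [← IntermediateField.fixingSubgroup_fixedField T, IntermediateField.mem_fixingSubgroup_iff]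
    intro z hz
    have h1 := hL _ hLle (fun y hy => by
      obtain ⟨τ, hτ⟩ := hY y hy
      refine ⟨τ, fun z hz => (IntermediateField.mem_fixedField_iff T z).1 hz τ ?_, hτ⟩
      rw [hTmem]
      intro σ hσ
      rw [AlgEquiv.mul_apply, hτ]
      exact hinv y hy σ hσ) z hz
    apply φ.injective
    rw [hcφ]
    exact Complex.conj_eq_iff_im.2 h1
  have e := (hTmem c).1 hcT σ₀ (by rw [hσ₀])
  rw [AlgEquiv.mul_apply, hc, hodd, hσ₀] at e
  apply hM
  linarith

open Classical in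
/-- **Newton polygons close to the supersingular one.** -/
theorem zero_of_small [IsGalois ℚ K] (φ : K →+* ℂ) {q : ℕ} (hq : 2 ≤ q) {α : K}
    (hα : IsWeil q α) {w : AbsoluteValue K ℝ} (hw : w (q : K) < 1) (h1 : w α = 1)
    (hs : ∑ x ∈ conjs α, |pSlope w q x - 1 / 2| ≤ 2)
    (hL : ∑ x ∈ conjs α, |pSlope w q x - 1 / 2| = 2 → ∀ L : IntermediateField ℚ K,
      L ≤ IntermediateField.adjoin ℚ {α} →
      (∀ y ∈ conjs α, 1 / 2 < pSlope w q y → y ≠ (q : K) / α → y ∈ conjsOver L α) →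
      ∀ z ∈ L, (φ z).im = 0)
    (r : K → ℝ) (hoddr : ∀ x, r ((q : K) / x) = - r x)
    (hhalf : ∀ σ : K ≃ₐ[ℚ] K, ∑ y ∈ conjs α, r (σ y) * max (1 / 2 - pSlope w q y) 0 = 0) :
    ∀ x ∈ conjs α, r x = 0 := by
  obtain ⟨c, hcφ⟩ := exists_conj φ
  have hαX := self_mem α
  have hX := stable_conjs α
  have hW : ∀ x ∈ conjs α, IsWeil q x := fun x hx => isWeil_of_mem hα hx
  have hα0 : α ≠ 0 := ne_zero_of_isWeil hq φ hα
  have hq0 : (q : K) ≠ 0 := by
    have : q ≠ 0 := by omega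
    exact_mod_cast this
  have hcα : c α = (q : K) / α := conj_apply hcφ hq hα
  have hβX : (q : K) / α ∈ conjs α := div_mem φ hq hX hW hαX
  have hsα : pSlope w q α - 1 / 2 = -(1 / 2) := by
    rw [pSlope, h1, Real.log_one, zero_div]
    ring
  have hsβ : pSlope w q ((q : K) / α) - 1 / 2 = 1 / 2 := by
    rw [pSlope_div hq hw hα0]
    linarith
  have hne : (q : K) / α ≠ α := by
    intro e
    rw [e] at hsβ
    linarith
  have hrelr : ∀ σ : K ≃ₐ[ℚ] K, ∑ y ∈ conjs α, r (σ y) * (pSlope w q y - 1 / 2) = 0 := by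
    intro σ
    rw [full_of_half φ hq hX hW hw (fun y => r (σ y))
      (fun x => by rw [map_div₀, map_natCast, hoddr]), hhalf σ, mul_zero]
  have hoddσ : ∀ σ : K ≃ₐ[ℚ] K, r (σ ((q : K) / α)) = - r (σ α) := by
    intro σ
    rw [map_div₀, map_natCast]
    exact hoddr _
  obtain ⟨x₀, hx₀, hmax⟩ := Finset.exists_max_image (conjs α) (fun x => |r x|) ⟨α, hαX⟩
  obtain ⟨σ₀, rfl⟩ := mem_conjs.1 hx₀
  by_cases hM : r (σ₀ α) = 0
  · intro x hx
    have := hmax x hx
    simp only [hM, abs_zero] at this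
    exact abs_nonpos_iff.1 this
  exfalso
  obtain ⟨hs1, hs2⟩ := key_abs (s := fun y => pSlope w q y - 1 / 2) hαX hβX hne hsα hsβ hs
  -- the equality case for every maximal coordinate
  have hstep : ∀ σ : K ≃ₐ[ℚ] K, |r (σ α)| = |r (σ₀ α)| →
      (∑ y ∈ ((conjs α).erase α).erase ((q : K) / α), |pSlope w q y - 1 / 2| = 1) ∧
      ∀ y ∈ ((conjs α).erase α).erase ((q : K) / α), 0 < pSlope w q y - 1 / 2 →
        r (σ y) = r (σ α) := by
    intro σ hσ
    refine eq_of_max (s := fun y => pSlope w q y - 1 / 2) (r := fun y => r (σ y)) ?_ ?_ ?_ hs1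
    · intro h0
      rw [h0, abs_zero] at hσ
      exact hM (abs_eq_zero.1 hσ.symm)
    · exact key (r := fun y => r (σ y)) (s := fun y => pSlope w q y - 1 / 2) hαX hβX hne hsα hsβ
        (hoddσ σ) (hrelr σ)
    · intro y hy
      rw [hσ]
      exact hmax _ (smul_mem σ (Finset.mem_of_mem_erase (Finset.mem_of_mem_erase hy)))
  obtain ⟨hsum, -⟩ := hstep σ₀ rfl
  have h2 : ∑ x ∈ conjs α, |pSlope w q x - 1 / 2| = 2 := by
    by_contra hcon
    exact (hs2 hcon).ne hsum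
  refine subgroup_part φ (Y := {y : K | y ∈ conjs α ∧ 1 / 2 < pSlope w q y ∧ y ≠ (q : K) / α}) c
    hcφ hcα r (r (σ₀ α)) hM (fun y hy => mem_conjs.1 hy.1) hoddσ (fun y hy σ hσ => ?_)
    (fun L hLα hLY => hL h2 L hLα (fun y hy h1 h3 => ?_)) σ₀ rfl
  · have hyα : y ≠ α := by
      rintro rfl
      have := hy.2.1
      linarith
    exact (hstep σ hσ).2 y (Finset.mem_erase.2 ⟨hy.2.2, Finset.mem_erase.2 ⟨hyα, hy.1⟩⟩)
      (by have := hy.2.1; linarith)
  · exact mem_conjsOver.2 (hLY y ⟨hy, h1, h3⟩)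

end Pool.Agent.MP_4960c7
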