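import Pool.Agent.Lib.MP_4960c7_ag.WR.Ring
import Pool.Agent.Lib.MP_4960c7_ag.WR.Small
import Pool.Agent.Lib.MP_4960c7_ag.WR.Prime
import Pool.Agent.Lib.MP_4960c7_ag.WR.Sep

/-!
# Tate classes
-/

namespace Pool.Agent.MP_4960c7

open Finset

variable {K : Type*} [Field K] [NumberField K]

/-- a conjugate of slope different from `1/2` excludes `x ^ 2 = q` -/
theorem div_ne_self [IsGalois ℚ K] {q : ℕ} (hq : 2 ≤ q) (φ : K →+* ℂ) {α : K}
    (hα : IsWeil q α) {w : AbsoluteValue K ℝ} (hw : w (q : K) < 1)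
    (h : ∃ x ∈ conjs α, pSlope w q x ≠ 1 / 2) : ∀ x ∈ conjs α, (q : K) / x ≠ x := by
  obtain ⟨y, hy, hys⟩ := h
  intro x hx e
  apply hys
  obtain ⟨σ, rfl⟩ := mem_conjs.1 hx
  obtain ⟨τ, rfl⟩ := mem_conjs.1 hy
  have e1 : (q : K) / α = α := by
    apply σ.injective
    rw [map_div₀, map_natCast, e]
  have e2 : (q : K) / τ α = τ α := by
    conv_rhs => rw [← e1]
    rw [map_div₀, map_natCast]
  have e3 := pSlope_div hq hw (ne_zero_of_isWeil hq φ (isWeil_of_mem hα hy))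
  rw [e2] at e3
  linarith

theorem tate_of_relations [IsGalois ℚ K] (φ : K →+* ℂ) {q : ℕ} (hq : 2 ≤ q) {X : Finset K}
    (hX : Stable X) (hW : ∀ x ∈ X, IsWeil q x) (hne : ∀ x ∈ X, (q : K) / x ≠ x)
    (h : OnlyTrivialRelations q X) {F V : Type*} [Field F] [AddCommGroup V] [Module F V]
    (ι : K →+* F) (Fr : V →ₗ[F] V) (hFr : DiagonalisableOver q ι X Fr) :
    TateGeneratedInDegreeTwo q Fr := by
  have hq0 : (q : K) ≠ 0 := by
    have : q ≠ 0 := by omega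
    exact_mod_cast this
  exact tate_of_trivial h hq0 (fun x hx => ne_zero_of_isWeil hq φ (hW x hx)) hne
    (fun x hx => div_mem φ hq hX hW hx) ι Fr hFr

theorem div_ne_self_conjsOf {q : ℕ} {A : Finset K} (h : ∀ α ∈ A, (q : K) / α ≠ α) :
    ∀ x ∈ conjsOf A, (q : K) / x ≠ x := by
  intro x hx e
  obtain ⟨α, hα, hx⟩ := mem_conjsOf.1 hx
  obtain ⟨σ, rfl⟩ := mem_conjs.1 hx
  apply h α hα
  apply σ.injective
  rw [map_div₀, map_natCast, e]

/-- Products of factors which satisfy the conditions of `zero_of_small`. -/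
theorem trivial_of_small [IsGalois ℚ K] (φ : K →+* ℂ) {q : ℕ} (hq : 2 ≤ q) {A : Finset K}
    (hA : ∀ α ∈ A, IsWeil q α) {w : AbsoluteValue K ℝ} (hw : w (q : K) < 1)
    (h0 : ∀ α ∈ A, w α = 1) (hs : ∀ α ∈ A, ∑ x ∈ conjs α, |pSlope w q x - 1 / 2| ≤ 2)
    (hL : ∀ α ∈ A, ∑ x ∈ conjs α, |pSlope w q x - 1 / 2| = 2 → ∀ L : IntermediateField ℚ K,
      L ≤ IntermediateField.adjoin ℚ {α} →
      (∀ y ∈ conjs α, 1 / 2 < pSlope w q y → y ≠ (q : K) / α → y ∈ conjsOver L α) →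
      ∀ z ∈ L, (φ z).im = 0)
    (hsep : ∀ α ∈ A, Separated φ w q A α) : OnlyTrivialRelations q (conjsOf A) := by
  intro n N m hN hrel x hx
  have hq0 : (q : K) ≠ 0 := by
    have : q ≠ 0 := by omega
    exact_mod_cast this
  obtain ⟨α, hα, hx⟩ := mem_conjsOf.1 hx
  have h := zero_of_small φ hq (hA α hα) hw (h0 α hα) (hs α hα) (hL α hα)
    (fun x => ((n x - n ((q : K) / x) : ℤ) : ℝ))
    (fun x => by rw [div_div_cancel₀ hq0]; push_cast; ring)
    (fun σ => separate φ hq hA hw hN hrel hα (hsep α hα) σ) x hx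
  have h' : n x - n ((q : K) / x) = 0 := by exact_mod_cast h
  omega

theorem trivial_of_prime_power [IsGalois ℚ K] (φ : K →+* ℂ) {q : ℕ} (hq : 2 ≤ q) {A : Finset K}
    (hA : ∀ α ∈ A, IsWeil q α) {w : AbsoluteValue K ℝ} (hw : w (q : K) < 1)
    (hne : ∀ α ∈ A, (q : K) / α ≠ α) (hp : ∀ α ∈ A, PrimePowerType φ w q α)
    (hsep : ∀ α ∈ A, Separated φ w q A α) : OnlyTrivialRelations q (conjsOf A) := by
  intro n N m hN hrel x hx
  have hq0 : (q : K) ≠ 0 := by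
    have : q ≠ 0 := by omega
    exact_mod_cast this
  obtain ⟨α, hα, hx⟩ := mem_conjsOf.1 hx
  obtain ⟨F, l, k, t, D, hF, hl, hcard, hD, ht, ht', hsum⟩ := hp α hα
  have h := zero_of_prime_power φ hq (hA α hα) hw F hF hl hcard t hD ht ht' hsum (hne α hα)
    (fun x => n x - n ((q : K) / x)) (fun x => by rw [div_div_cancel₀ hq0]; ring)
    (fun σ => separate φ hq hA hw hN hrel hα (hsep α hα) σ) x hx
  omega

end Pool.Agent.MP_4960c7
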